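import Pool.Agent.E8helper17.FZ.Tri

set_option autoImplicit false

namespace Pool.Agent.E8helper17.FZ

open Finset MvPolynomial

section
variable {ρ ι J : Type} [Fintype ρ] [Fintype ι] [Fintype J] [DecidableEq ι]

/-- the `i'`-th bilinear equation -/
def bil {K : Type} [Field K] (i : J → ι) (β γ : J → ρ → ℤ) (u v : ρ → K) (i' : ι) : K :=
  ∑ j, if i j = i' then lin (β j) u * lin (γ j) v else 0

theorem Col.bilin {P : ℕ} (h : Col 3 P) (i : J → ι) (β γ : J → ρ → ℤ) :
    Continues P (fun K _ => (Nat.card {z : (ρ → K) × (ρ → K) // bil i β γ z.1 z.2 = 0} : ℤ)) := by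
  classical
  let lam : J → Fin 3 → (ι ⊕ (ρ ⊕ ρ)) → ℤ := fun j => ![Pi.single (Sum.inl (i j)) 1,
    Sum.elim (fun _ => 0) (Sum.elim (β j) (fun _ => 0)),
    Sum.elim (fun _ => 0) (Sum.elim (fun _ => 0) (γ j))]
  have h1 := h.tri (V0 := ι ⊕ (ρ ⊕ ρ)) (J := J)
    (Sum.elim (fun _ => 0) (Sum.elim (fun _ => 1) (fun _ => 2))) lam (by
      intro j k v hv
      fin_cases k
      · rcases v with v | v | v
        · rfl
        · exact absurd (by simp [lam]) hv
        · exact absurd (by simp [lam]) hv
      · rcases v with v | v | v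
        · exact absurd (by simp [lam]) hv
        · rfl
        · exact absurd (by simp [lam]) hv
      · rcases v with v | v | v
        · exact absurd (by simp [lam]) hv
        · exact absurd (by simp [lam]) hv
        · rfl)
  have hgr : Growth (fun K _ => (Nat.card {z : (ρ → K) × (ρ → K) // bil i β γ z.1 z.2 = 0} : ℤ)) := by
    refine growth_of_le (n := Fintype.card ρ + Fintype.card ρ) fun K _ _ => ?_
    rw [abs_of_nonneg (by positivity)]
    have h1 : Nat.card {z : (ρ → K) × (ρ → K) // bil i β γ z.1 z.2 = 0} ≤
        Nat.card ((ρ → K) × (ρ → K)) := Finite.card_subtype_le _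
    rw [Nat.card_prod, Nat.card_fun, Nat.card_eq_fintype_card (α := ρ), ← pow_add] at h1
    exact_mod_cast h1
  refine continues_of_rel (u := Fintype.card ι) hgr
    (h.pow (Fintype.card ι + (Fintype.card ρ + Fintype.card ρ))) (h1.shift 1) fun K _ _ => ?_
  have := Fintype.ofFinite K
  have e1 := y_trick (K := K) (X := (ρ → K) × (ρ → K)) (ι := ι) (fun z => bil i β γ z.1 z.2)
  have e2 : Nat.card {x : ι ⊕ (ρ ⊕ ρ) → K // ∑ j, ∏ k, lin (lam j k) x = 0} =
      Nat.card {z : ((ρ → K) × (ρ → K)) × (ι → K) // ∑ i', z.2 i' * bil i β γ z.1.1 z.1.2 i' = 0} := by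
    refine Nat.card_congr (((Equiv.sumArrowEquivProdArrow ι (ρ ⊕ ρ) K).trans
      ((Equiv.prodComm _ _).trans ((Equiv.sumArrowEquivProdArrow ρ ρ K).prodCongr
        (Equiv.refl _)))).subtypeEquiv fun x => ?_)
    have : ∑ j, ∏ k, lin (lam j k) x = ∑ i', x (Sum.inl i') * bil i β γ
        (fun a => x (Sum.inr (Sum.inl a))) (fun a => x (Sum.inr (Sum.inr a))) i' := by
      unfold bil
      simp only [mul_sum, mul_ite, mul_zero]
      rw [Finset.sum_comm]
      simp only [Finset.sum_ite_eq, Finset.mem_univ, if_true]
      refine Finset.sum_congr rfl fun j _ => ?_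
      rw [Fin.prod_univ_three]
      have a1 : lin (lam j 0) x = x (Sum.inl (i j)) := lin_single _ _
      have a2 : lin (lam j 1) x = lin (β j) (fun a => x (Sum.inr (Sum.inl a))) := by
        unfold lin
        rw [Fintype.sum_sum_type, Fintype.sum_sum_type]
        simp [lam]
      have a3 : lin (lam j 2) x = lin (γ j) (fun a => x (Sum.inr (Sum.inr a))) := by
        unfold lin
        rw [Fintype.sum_sum_type, Fintype.sum_sum_type]
        simp [lam]
      rw [a1, a2, a3, mul_assoc]
    rw [this]
    rfl
  rw [pow_one, e2, e1, Nat.card_prod, Nat.card_fun, Nat.card_eq_fintype_card (α := ρ)]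
  push_cast
  ring

theorem par_count {K : Type} [Field K] [Finite K] (B : (ρ → K) → (ρ → K) → Prop)
    (Q : (ρ → K) → Prop) (h0 : ∀ v, B 0 v) (hc : ∀ (u : ρ → K) (c : K), B u (c • u) ↔ (c = 0 ∨ Q u))
    (hQ0 : Q 0) :
    (Nat.card {z : (ρ → K) × (ρ → K) // B z.1 z.2 ∧ ∀ a b, z.1 a * z.2 b = z.1 b * z.2 a} : ℤ) =
      2 * (Nat.card K : ℤ) ^ Fintype.card ρ - Nat.card K +
        ((Nat.card K : ℤ) - 1) * Nat.card {u : ρ → K // Q u} := by
  classical
  have := Fintype.ofFinite K
  have h1 := card_fiber (X := ρ → K) (Y := ρ → K)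
    (fun u v => B u v ∧ ∀ a b, u a * v b = u b * v a)
  rw [finsum_eq_sum_of_fintype] at h1
  rw [h1]
  push_cast
  have hf : ∀ u : ρ → K, (Nat.card {v : ρ → K // B u v ∧ ∀ a b, u a * v b = u b * v a} : ℤ) =
      1 + ((Nat.card K : ℤ) - 1) * (if Q u then 1 else 0) +
        (if u = 0 then (Nat.card K : ℤ) ^ Fintype.card ρ - Nat.card K else 0) := by
    intro u
    by_cases hu : u = 0
    · subst hu
      rw [if_pos hQ0, if_pos rfl, Nat.card_congr (Equiv.subtypeUnivEquiv fun v => ⟨h0 v, by simp⟩),
        Nat.card_fun, Nat.card_eq_fintype_card (α := ρ)]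
      push_cast
      ring
    · rw [if_neg hu, add_zero]
      obtain ⟨a0, ha0⟩ : ∃ a, u a ≠ 0 := by
        by_contra h
        push Not at h
        exact hu (funext h)
      have e : {c : K // c = 0 ∨ Q u} ≃ {v : ρ → K // B u v ∧ ∀ a b, u a * v b = u b * v a} :=
        { toFun := fun c => ⟨c.1 • u, (hc u c.1).2 c.2, fun a b => by
            simp only [Pi.smul_apply, smul_eq_mul]; ring⟩
          invFun := fun v => ⟨v.1 a0 / u a0, by
            rw [← hc]
            have : (v.1 a0 / u a0) • u = v.1 := by
              ext b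
              have := v.2.2 a0 b
              simp only [Pi.smul_apply, smul_eq_mul]
              field_simp
              linear_combination -this
            rw [this]
            exact v.2.1⟩
          left_inv := fun c => by
            apply Subtype.ext
            simp only [Pi.smul_apply, smul_eq_mul]
            field_simp
          right_inv := fun v => by
            apply Subtype.ext
            ext b
            have := v.2.2 a0 b
            simp only [Pi.smul_apply, smul_eq_mul]
            field_simp
            linear_combination -this }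
      rw [← Nat.card_congr e]
      split_ifs with hq
      · rw [Nat.card_congr (Equiv.subtypeUnivEquiv fun c => Or.inr hq)]
        ring
      · have : Nat.card {c : K // c = 0 ∨ Q u} = 1 := by
          rw [Nat.card_eq_one_iff_unique]
          exact ⟨⟨fun a b => Subtype.ext ((a.2.resolve_right hq).trans (b.2.resolve_right hq).symm)⟩,
            ⟨⟨0, Or.inl rfl⟩⟩⟩
        rw [this]
        simp
  rw [Finset.sum_congr rfl fun u _ => hf u, Finset.sum_add_distrib, Finset.sum_add_distrib,
    ← mul_sum, ← card_sub_ite, Finset.sum_ite_eq']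
  simp only [Finset.mem_univ, if_true, Finset.sum_const, Finset.card_univ, nsmul_eq_mul, mul_one]
  have hcard : (Fintype.card (ρ → K) : ℤ) = (Nat.card K : ℤ) ^ Fintype.card ρ := by
    rw [← Nat.card_eq_fintype_card, Nat.card_fun, Nat.card_eq_fintype_card (α := ρ)]
    push_cast
    rfl
  rw [hcard]
  ring

/-- systems of homogeneous quadratic equations -/
theorem Col.hquad {P : ℕ} (h : Col 3 P) (i : J → ι) (β γ : J → ρ → ℤ) :
    Continues P (fun K _ => (Nat.card {u : ρ → K // bil i β γ u u = 0} : ℤ)) := by
  classical
  let i' : J ⊕ ((ρ × ρ) × Bool) → ι ⊕ (ρ × ρ) := Sum.map i Prod.fst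
  let β' : J ⊕ ((ρ × ρ) × Bool) → ρ → ℤ := Sum.elim β (fun x =>
    if x.2 then Pi.single x.1.1 1 else -Pi.single x.1.2 1)
  let γ' : J ⊕ ((ρ × ρ) × Bool) → ρ → ℤ := Sum.elim γ (fun x =>
    if x.2 then Pi.single x.1.2 1 else Pi.single x.1.1 1)
  have h1 := h.bilin i' β' γ'
  have hA : Continues P (fun K _ => 2 * (Nat.card K : ℤ) ^ Fintype.card ρ - (Nat.card K : ℤ)) := by
    refine continues_congr (((h.pow (Fintype.card ρ)).int_mul 2).add ((h.pow 1).neg)) fun K _ _ _ => ?_
    ring
  refine continues_of_rel (u := 0) (growth_card fun K _ u => bil i β γ u u = 0) hA h1 fun K _ _ => ?_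
  have e1 := par_count (K := K) (ρ := ρ) (fun u v => bil i β γ u v = 0) (fun u => bil i β γ u u = 0)
    (by
      intro v
      ext a
      have : ∀ j, lin (β j) (0 : ρ → K) = 0 := fun j => by simp [lin]
      simp [bil, this])
    (by
      intro u c
      have : bil i β γ u (c • u) = c • bil i β γ u u := by
        ext a
        simp only [bil, Pi.smul_apply, smul_eq_mul, mul_sum, mul_ite, mul_zero]
        refine Finset.sum_congr rfl fun j _ => ?_
        split_ifs with hj
        · have : lin (γ j) (c • u) = c * lin (γ j) u := by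
            unfold lin
            rw [mul_sum]
            refine Finset.sum_congr rfl fun b _ => ?_
            simp only [Pi.smul_apply, smul_eq_mul]
            ring
          rw [this]
          ring
        · rfl
      rw [this, smul_eq_zero])
    (by
      ext a
      have : ∀ j, lin (β j) (0 : ρ → K) = 0 := fun j => by simp [lin]
      simp [bil, this])
  have e2 : Nat.card {z : (ρ → K) × (ρ → K) // bil i' β' γ' z.1 z.2 = 0} =
      Nat.card {z : (ρ → K) × (ρ → K) // bil i β γ z.1 z.2 = 0 ∧
        ∀ a b, z.1 a * z.2 b = z.1 b * z.2 a} := by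
    refine Nat.card_congr (Equiv.subtypeEquivRight fun z => ?_)
    have k1 : ∀ a, bil i' β' γ' z.1 z.2 (Sum.inl a) = bil i β γ z.1 z.2 a := by
      intro a
      unfold bil
      rw [Fintype.sum_sum_type]
      have : ∀ x : (ρ × ρ) × Bool, i' (Sum.inr x) ≠ Sum.inl a := fun x => by simp [i']
      simp only [this, if_false, Finset.sum_const_zero, add_zero]
      refine Finset.sum_congr rfl fun j _ => ?_
      simp [i', β', γ']
    have k2 : ∀ a b, bil i' β' γ' z.1 z.2 (Sum.inr (a, b)) = z.1 a * z.2 b - z.1 b * z.2 a := by
      intro a b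
      unfold bil
      rw [Fintype.sum_sum_type]
      have : ∀ x : J, i' (Sum.inl x) ≠ Sum.inr (a, b) := fun x => by simp [i']
      simp only [this, if_false, Finset.sum_const_zero, zero_add]
      rw [Fintype.sum_prod_type]
      have k3 : ∀ x : ρ × ρ, (∑ y : Bool, if i' (Sum.inr (x, y)) = Sum.inr (a, b) then
          lin (β' (Sum.inr (x, y))) z.1 * lin (γ' (Sum.inr (x, y))) z.2 else 0) =
          if x = (a, b) then (z.1 a * z.2 b - z.1 b * z.2 a) else 0 := by
        intro x
        rw [Fintype.sum_bool]
        by_cases hx : x = (a, b)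
        · subst hx
          have n1 : lin (-Pi.single b 1 : ρ → ℤ) z.1 = -z.1 b := by
            rw [← lin_single b z.1]
            unfold lin
            rw [← Finset.sum_neg_distrib]
            refine Finset.sum_congr rfl fun c _ => ?_
            simp
          simp [i', β', γ', lin_single, n1]
          ring
        · have : ∀ y : Bool, i' (Sum.inr (x, y)) ≠ Sum.inr (a, b) := fun y => by
            simp only [i', Sum.map_inr]
            intro h
            exact hx (Sum.inr_injective h)
          simp only [this, if_false, hx, add_zero]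
      rw [Finset.sum_congr rfl fun x _ => k3 x, Finset.sum_ite_eq']
      simp
    constructor
    · intro hz
      refine ⟨?_, fun a b => ?_⟩
      · ext a
        rw [← k1, hz]
        rfl
      · have := k2 a b
        rw [hz] at this
        exact (sub_eq_zero.1 this.symm)
    · rintro ⟨hz1, hz2⟩
      ext a
      rcases a with a | ⟨a, b⟩
      · rw [k1, hz1]
        rfl
      · rw [k2, hz2 a b, sub_self]
        rfl
  rw [e2, e1]
  push_cast
  ring

theorem Col.quad {P : ℕ} (h : Col 3 P)
    (a b c : ι → MvPolynomial ρ ℤ) (haff : ∀ i, IsAff (a i) ∧ IsAff (b i) ∧ IsAff (c i)) :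
    Continues P (fun K _ => (Nat.card {w : ρ → K //
      (fun i => aeval w (a i) * aeval w (b i) + aeval w (c i)) = 0} : ℤ)) := by
  classical
  choose la hla using fun i => (haff i).1.hom
  choose lb hlb using fun i => (haff i).2.1.hom
  choose lc hlc using fun i => (haff i).2.2.hom
  have h1 := h.hquad (ρ := Option ρ) (ι := ι) (J := ι × Bool) Prod.fst
    (fun x => if x.2 then la x.1 else Pi.single none 1) (fun x => if x.2 then lb x.1 else lc x.1)
  have h0 := h.hquad (ρ := ρ) (ι := ι) (J := ι) id (fun i r => la i (some r)) (fun i r => lb i (some r))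
  refine continues_of_rel (u := 0) (growth_card fun K _ w =>
    (fun i => aeval w (a i) * aeval w (b i) + aeval w (c i)) = 0) h0 h1 fun K _ _ => ?_
  let lf : (Option ρ → ℤ) → K → (ρ → K) → K := fun l T v => lin l (fun o : Option ρ => o.elim T v)
  have e1 := t_count (K := K) (W := ρ → K)
    (fun T w => (fun i => lf (la i) T w * lf (lb i) T w + T * lf (lc i) T w) = 0)
    (Nat.card {w : ρ → K // (fun i => aeval w (a i) * aeval w (b i) + aeval w (c i)) = 0}) ?_
  · have e2 : Nat.card {u : Option ρ → K // bil Prod.fst
        (fun x : ι × Bool => if x.2 then la x.1 else Pi.single none 1)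
        (fun x => if x.2 then lb x.1 else lc x.1) u u = 0} =
        Nat.card {z : K × (ρ → K) // (fun i => lf (la i) z.1 z.2 * lf (lb i) z.1 z.2 +
          z.1 * lf (lc i) z.1 z.2) = 0} := by
      refine Nat.card_congr ((Equiv.piOptionEquivProd (β := fun _ : Option ρ => K)).subtypeEquiv
        fun u => ?_)
      have hu : u = (fun o : Option ρ => o.elim (u none) (fun a => u (some a))) := by
        ext o; cases o <;> rfl
      have : bil Prod.fst (fun x : ι × Bool => if x.2 then la x.1 else Pi.single none 1)
        (fun x => if x.2 then lb x.1 else lc x.1) u u = fun i => lf (la i) (u none)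
          (fun a => u (some a)) * lf (lb i) (u none) (fun a => u (some a)) +
          u none * lf (lc i) (u none) (fun a => u (some a)) := by
        ext i'
        unfold bil
        rw [Fintype.sum_prod_type]
        simp only [Fintype.sum_bool, if_true, Bool.false_eq_true, if_false, lin_single]
        simp only [Finset.sum_add_distrib, Finset.sum_ite_eq', Finset.mem_univ, if_true]
        simp only [lf]
        rw [← hu]
      rw [this]
      rfl
    have e3 : Nat.card {w : ρ → K // (fun i => lf (la i) 0 w * lf (lb i) 0 w +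
        0 * lf (lc i) 0 w) = 0} =
        Nat.card {u : ρ → K // bil id (fun i r => la i (some r)) (fun i r => lb i (some r)) u u = 0} := by
      refine Nat.card_congr (Equiv.subtypeEquivRight fun w => ?_)
      have : bil id (fun i r => la i (some r)) (fun i r => lb i (some r)) w w =
          fun i => lf (la i) 0 w * lf (lb i) 0 w + 0 * lf (lc i) 0 w := by
        ext i'
        have k : ∀ l : Option ρ → ℤ, lf l 0 w = lin (fun r => l (some r)) w := by
          intro l
          simp only [lf, lin]
          rw [Fintype.sum_option]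
          simp
        unfold bil
        simp only [id, Finset.sum_ite_eq', Finset.mem_univ, if_true, k]
        ring
      rw [this]
    rw [e2, e1, e3]
    push_cast
    ring
  · intro T hT
    congr 1
    refine Nat.card_congr ((Equiv.piCongrRight fun _ : ρ => Equiv.mulLeft₀ T hT).subtypeEquiv
      fun w => ?_).symm
    have k1 : ∀ (p : MvPolynomial ρ ℤ) (l : Option ρ → ℤ),
        (∀ (K : Type) [Field K] (v : Option ρ → K) (w : ρ → K),
          (∀ i, v (some i) = v none * w i) → lin l v = v none * aeval w p) →
        lf l T (fun r => T * w r) = T * aeval w p := by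
      intro p l hl
      exact hl K (fun o : Option ρ => o.elim T (fun r => T * w r)) w fun i => rfl
    have k2 : (fun i => lf (la i) T (fun r => T * w r) * lf (lb i) T (fun r => T * w r) +
          T * lf (lc i) T (fun r => T * w r)) =
        T ^ 2 • (fun i => aeval w (a i) * aeval w (b i) + aeval w (c i)) := by
      ext i
      rw [k1 _ _ (hla i), k1 _ _ (hlb i), k1 _ _ (hlc i)]
      simp only [Pi.smul_apply, smul_eq_mul]
      ring
    show _ ↔ (fun i => lf (la i) T (fun r => T * w r) * lf (lb i) T (fun r => T * w r) +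
          T * lf (lc i) T (fun r => T * w r)) = 0
    rw [k2, smul_eq_zero]
    simp [hT]

end

theorem Col.all {P : ℕ} (h : Col 3 P) {n r : ℕ} (f : Fin r → MvPolynomial (Fin n) ℤ) :
    Continues P (fun K _ => (points f K : ℤ)) := by
  classical
  exact all_of_quad h.pow (fun _ _ _ _ a b c haff => h.quad a b c haff) f

end Pool.Agent.E8helper17.FZ
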