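import Pool.Agent.E8helper17.FZ.Hom

set_option autoImplicit false

namespace Pool.Agent.E8helper17.FZ

open Finset MvPolynomial

section
variable {ρ ι : Type} [Fintype ρ] [Fintype ι]

theorem lin_single {K : Type} [Field K] [DecidableEq ρ] (a : ρ) (v : ρ → K) :
    lin (Pi.single a 1 : ρ → ℤ) v = v a := by
  unfold lin
  rw [Finset.sum_eq_single a]
  · rw [Pi.single_eq_same]; simp
  · intro b _ hb; rw [Pi.single_eq_of_ne hb]; simp
  · intro h; exact absurd (mem_univ _) h

/-- extension of a linear form -/
def ext1 (ι : Type) (l : Option ρ → ℤ) : Option (ρ ⊕ ι) → ℤ :=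
  fun o => o.elim (l none) (Sum.elim (fun a => l (some a)) (fun _ => 0))

theorem lin_ext1 {K : Type} [Field K] (l : Option ρ → ℤ) (v : Option (ρ ⊕ ι) → K) :
    lin (ext1 ι l) v = lin l (fun o => o.elim (v none) (fun a => v (some (Sum.inl a)))) := by
  unfold lin ext1
  rw [Fintype.sum_option, Fintype.sum_sum_type, Fintype.sum_option]
  simp

/-- extension of a linear form, `T = 0` -/
def ext0 (ι : Type) (l : Option ρ → ℤ) : ρ ⊕ ι → ℤ := Sum.elim (fun a => l (some a)) (fun _ => 0)

theorem lin_ext0 {K : Type} [Field K] (l : Option ρ → ℤ) (v : ρ ⊕ ι → K) :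
    lin (ext0 ι l) v = lin l (fun o => o.elim 0 (fun a => v (Sum.inl a))) := by
  unfold lin ext0
  rw [Fintype.sum_sum_type, Fintype.sum_option]
  simp

theorem HP.quad1 {d P : ℕ} (h : HP d P) (hd3 : 3 ≤ d) (hd : d ≤ P)
    (a b c : ι → MvPolynomial ρ ℤ) (haff : ∀ i, IsAff (a i) ∧ IsAff (b i) ∧ IsAff (c i)) :
    Continues P (fun K _ => (Nat.card {z : (ρ → K) × (ι → K) //
      ∑ i, z.2 i * (aeval z.1 (a i) * aeval z.1 (b i) + aeval z.1 (c i)) = 0} : ℤ)) := by
  classical
  choose la hla using fun i => (haff i).1.hom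
  choose lb hlb using fun i => (haff i).2.1.hom
  choose lc hlc using fun i => (haff i).2.2.hom
  -- the cubic form
  have hcub := h.cub hd3 hd (ρ := Option (ρ ⊕ ι)) (J := ι ⊕ ι)
    (Sum.elim (fun i => Pi.single (some (Sum.inr i)) 1) (fun i => Pi.single (some (Sum.inr i)) 1))
    (Sum.elim (fun i => ext1 ι (la i)) (fun _ => Pi.single none 1))
    (Sum.elim (fun i => ext1 ι (lb i)) (fun i => ext1 ι (lc i)))
  have hcub0 := h.cub hd3 hd (ρ := ρ ⊕ ι) (J := ι)
    (fun i => Pi.single (Sum.inr i) 1) (fun i => ext0 ι (la i)) (fun i => ext0 ι (lb i))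
  refine continues_of_rel (u := 0) (growth_of_le (n := Fintype.card ρ + Fintype.card ι) ?_)
    hcub0 hcub ?_
  · intro K _ _
    rw [abs_of_nonneg (by positivity)]
    have h1 : Nat.card {z : (ρ → K) × (ι → K) //
      ∑ i, z.2 i * (aeval z.1 (a i) * aeval z.1 (b i) + aeval z.1 (c i)) = 0} ≤
        Nat.card ((ρ → K) × (ι → K)) := Finite.card_subtype_le _
    rw [Nat.card_prod, Nat.card_fun, Nat.card_fun, Nat.card_eq_fintype_card (α := ρ),
      Nat.card_eq_fintype_card (α := ι), ← pow_add] at h1
    exact_mod_cast h1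
  · intro K _ _
    let lf : (Option ρ → ℤ) → K → (ρ → K) → K := fun l T v => lin l (fun o : Option ρ => o.elim T v)
    have h1 := t_count (K := K) (W := (ρ → K) × (ι → K))
      (fun T z => ∑ i, z.2 i * (lf (la i) T z.1 * lf (lb i) T z.1 + T * lf (lc i) T z.1) = 0)
      (Nat.card {z : (ρ → K) × (ι → K) //
        ∑ i, z.2 i * (aeval z.1 (a i) * aeval z.1 (b i) + aeval z.1 (c i)) = 0}) ?_
    · have h2 : Nat.card {v : Option (ρ ⊕ ι) → K // ∑ j : ι ⊕ ι,
          lin ((Sum.elim (fun i => Pi.single (some (Sum.inr i)) 1)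
            (fun i => Pi.single (some (Sum.inr i)) 1) : ι ⊕ ι → Option (ρ ⊕ ι) → ℤ) j) v *
          lin ((Sum.elim (fun i => ext1 ι (la i)) (fun _ => Pi.single none 1) :
            ι ⊕ ι → Option (ρ ⊕ ι) → ℤ) j) v *
          lin ((Sum.elim (fun i => ext1 ι (lb i)) (fun i => ext1 ι (lc i)) :
            ι ⊕ ι → Option (ρ ⊕ ι) → ℤ) j) v = 0} =
          Nat.card {z : K × ((ρ → K) × (ι → K)) // ∑ i, z.2.2 i * (lf (la i) z.1 z.2.1 *
            lf (lb i) z.1 z.2.1 + z.1 * lf (lc i) z.1 z.2.1) = 0} := by
        refine Nat.card_congr (((Equiv.piOptionEquivProd (β := fun _ : Option (ρ ⊕ ι) => K)).trans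
          ((Equiv.refl K).prodCongr (Equiv.sumArrowEquivProdArrow ρ ι K))).subtypeEquiv fun v => ?_)
        rw [Fintype.sum_sum_type]
        simp only [Sum.elim_inl, Sum.elim_inr, lin_single, lin_ext1]
        rw [← Finset.sum_add_distrib]
        have : ∀ i, v (some (Sum.inr i)) * lin (la i) (fun o => o.elim (v none)
              (fun a => v (some (Sum.inl a)))) * lin (lb i) (fun o => o.elim (v none)
              (fun a => v (some (Sum.inl a)))) + v (some (Sum.inr i)) * v none *
              lin (lc i) (fun o => o.elim (v none) (fun a => v (some (Sum.inl a)))) =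
            v (some (Sum.inr i)) * (lin (la i) (fun o => o.elim (v none)
              (fun a => v (some (Sum.inl a)))) * lin (lb i) (fun o => o.elim (v none)
              (fun a => v (some (Sum.inl a)))) + v none *
              lin (lc i) (fun o => o.elim (v none) (fun a => v (some (Sum.inl a))))) := by
          intro i; ring
        simp only [this]
        rfl
      have h3 : Nat.card {v : ρ ⊕ ι → K // ∑ i : ι, lin (Pi.single (Sum.inr i) 1 : ρ ⊕ ι → ℤ) v *
            lin (ext0 ι (la i)) v * lin (ext0 ι (lb i)) v = 0} =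
          Nat.card {z : (ρ → K) × (ι → K) // ∑ i, z.2 i * (lf (la i) 0 z.1 *
            lf (lb i) 0 z.1 + 0 * lf (lc i) 0 z.1) = 0} := by
        refine Nat.card_congr ((Equiv.sumArrowEquivProdArrow ρ ι K).subtypeEquiv fun v => ?_)
        simp only [lin_single, lin_ext0, zero_mul, add_zero, mul_assoc]
        rfl
      rw [h2, h1, h3]
      push_cast
      ring
    · intro T hT
      congr 1
      refine Nat.card_congr (((Equiv.piCongrRight fun _ : ρ => Equiv.mulLeft₀ T hT).prodCongr
        (Equiv.refl (ι → K))).subtypeEquiv fun z => ?_).symm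
      have e1 : ∀ (p : MvPolynomial ρ ℤ) (l : Option ρ → ℤ),
          (∀ (K : Type) [Field K] (v : Option ρ → K) (w : ρ → K),
            (∀ i, v (some i) = v none * w i) → lin l v = v none * aeval w p) →
          lf l T (fun r => T * z.1 r) = T * aeval z.1 p := by
        intro p l hl
        exact hl K (fun o : Option ρ => o.elim T (fun r => T * z.1 r)) z.1 fun i => rfl
      have e2 : ∑ i, z.2 i * (lf (la i) T (fun r => T * z.1 r) * lf (lb i) T (fun r => T * z.1 r) +
            T * lf (lc i) T (fun r => T * z.1 r)) =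
          T ^ 2 * ∑ i, z.2 i * (aeval z.1 (a i) * aeval z.1 (b i) + aeval z.1 (c i)) := by
        rw [mul_sum]
        refine sum_congr rfl fun i _ => ?_
        rw [e1 _ _ (hla i), e1 _ _ (hlb i), e1 _ _ (hlc i)]
        ring
      show _ ↔ ∑ i, z.2 i * (lf (la i) T (fun r => T * z.1 r) * lf (lb i) T (fun r => T * z.1 r) +
            T * lf (lc i) T (fun r => T * z.1 r)) = 0
      rw [e2, mul_eq_zero]
      simp [hT]

/-- systems of quadratic equations -/
theorem HP.quad {d P : ℕ} (h : HP d P) (hd3 : 3 ≤ d) (hd : d ≤ P)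
    (a b c : ι → MvPolynomial ρ ℤ) (haff : ∀ i, IsAff (a i) ∧ IsAff (b i) ∧ IsAff (c i)) :
    Continues P (fun K _ => (Nat.card {w : ρ → K //
      (fun i => aeval w (a i) * aeval w (b i) + aeval w (c i)) = 0} : ℤ)) := by
  classical
  refine continues_of_rel (u := Fintype.card ι) (growth_of_le (n := Fintype.card ρ) ?_)
    (h.pow (Fintype.card ι + Fintype.card ρ)) ((h.quad1 hd3 hd a b c haff).shift 1) ?_
  · intro K _ _
    rw [abs_of_nonneg (by positivity)]
    have h1 : Nat.card {w : ρ → K //
      (fun i => aeval w (a i) * aeval w (b i) + aeval w (c i)) = 0} ≤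
        Nat.card (ρ → K) := Finite.card_subtype_le _
    rw [Nat.card_fun, Nat.card_eq_fintype_card (α := ρ)] at h1
    exact_mod_cast h1
  · intro K _ _
    have := Fintype.ofFinite K
    have h1 := y_trick (K := K) (X := ρ → K) (ι := ι)
      (fun w i => aeval w (a i) * aeval w (b i) + aeval w (c i))
    rw [pow_one, h1, Nat.card_fun, Nat.card_eq_fintype_card (α := ρ)]
    push_cast
    ring

end

/-- all systems of polynomial equations -/
theorem all_of_quad {P : ℕ} (hpow : ∀ m : ℕ, Continues P (fun K _ => (Nat.card K : ℤ) ^ m))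
    (hquad : ∀ (ρ ι : Type) [Fintype ρ] [Fintype ι] (a b c : ι → MvPolynomial ρ ℤ),
      (∀ i, IsAff (a i) ∧ IsAff (b i) ∧ IsAff (c i)) → Continues P (fun K _ =>
        (Nat.card {w : ρ → K // (fun i => aeval w (a i) * aeval w (b i) + aeval w (c i)) = 0} : ℤ)))
    {n r : ℕ}
    (f : Fin r → MvPolynomial (Fin n) ℤ) : Continues P (fun K _ => (points f K : ℤ)) := by
  classical
  let g : MvPolynomial (Fin n ⊕ Fin r) ℤ := ∑ i, X (Sum.inr i) * rename Sum.inl (f i)
  obtain ⟨τ, _, a, b, c, o, h1, ho, hz⟩ := rep_all g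
  let ρ := (Fin n ⊕ Fin r) ⊕ τ
  have hq := hquad ρ (Option τ) (fun i => i.elim 0 a) (fun i => i.elim 0 b)
    (fun i => i.elim o (fun j => c j + -X (Sum.inr j))) (by
      rintro (_ | j)
      · exact ⟨.zero, .zero, ho⟩
      · exact ⟨(h1 j).1, (h1 j).2.1, .add (h1 j).2.2 (.neg (.var _))⟩)
  have hg : Continues P (fun K _ => (Nat.card {xy : Fin n ⊕ Fin r → K // aeval xy g = 0} : ℤ)) := by
    refine continues_congr hq fun K _ _ _ => ?_
    congr 1
    refine Nat.card_congr ?_
    choose z hz1 hz2 using hz K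
    have key : ∀ w : ρ → K, ((fun i : Option τ => aeval w (i.elim 0 a) * aeval w (i.elim 0 b) +
        aeval w (i.elim o (fun j => c j + -X (Sum.inr j)))) = 0) ↔
        (w ∘ Sum.inr = z (w ∘ Sum.inl) ∧ aeval (w ∘ Sum.inl) g = 0) := by
      intro w
      have hw : w = Sum.elim (w ∘ Sum.inl) (w ∘ Sum.inr) := (Sum.elim_comp_inl_inr w).symm
      constructor
      · intro hh
        have k1 : w ∘ Sum.inr = z (w ∘ Sum.inl) := by
          rw [← hz1]
          intro j
          have := congrFun hh (some j)
          simp only [Option.elim_some, map_add, map_neg, aeval_X, Pi.zero_apply] at this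
          rw [← hw]
          simp only [Function.comp_apply]
          linear_combination -this
        refine ⟨k1, ?_⟩
        have := congrFun hh none
        simp only [Option.elim_none, map_zero, mul_zero, zero_add, Pi.zero_apply] at this
        rw [← hz2, ← k1, ← hw]
        exact this
      · rintro ⟨k1, k2⟩
        ext i
        rcases i with _ | j
        · simp only [Option.elim_none, map_zero, mul_zero, zero_add, Pi.zero_apply]
          rw [← hz2, ← k1, ← hw] at k2
          exact k2
        · simp only [Option.elim_some, map_add, map_neg, aeval_X, Pi.zero_apply]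
          have := (hz1 (w ∘ Sum.inl) (w ∘ Sum.inr)).2 k1 j
          rw [← hw] at this
          simp only [Function.comp_apply] at this
          linear_combination -this
    exact
      { toFun := fun w => ⟨w.1 ∘ Sum.inl, ((key w.1).1 w.2).2⟩
        invFun := fun x => ⟨Sum.elim x.1 (z x.1), (key _).2 ⟨rfl, x.2⟩⟩
        left_inv := fun w => by
          apply Subtype.ext
          show Sum.elim (w.1 ∘ Sum.inl) (z (w.1 ∘ Sum.inl)) = w.1
          rw [← ((key w.1).1 w.2).1, Sum.elim_comp_inl_inr]
        right_inv := fun x => by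
          apply Subtype.ext
          show Sum.elim x.1 (z x.1) ∘ Sum.inl = x.1
          rw [Sum.elim_comp_inl] }
  refine continues_of_rel (u := r) (growth_of_le (n := n) ?_)
    (hpow (r + n)) (hg.shift 1) ?_
  · intro K _ _
    rw [abs_of_nonneg (by positivity)]
    have h1 : points f K ≤ Nat.card (Fin n → K) := Finite.card_subtype_le _
    rw [Nat.card_fun, Nat.card_eq_fintype_card (α := Fin n), Fintype.card_fin] at h1
    exact_mod_cast h1
  · intro K _ _
    have := Fintype.ofFinite K
    have e1 := y_trick (K := K) (X := Fin n → K) (ι := Fin r) (fun x i => aeval x (f i))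
    have e2 : Nat.card {xy : Fin n ⊕ Fin r → K // aeval xy g = 0} =
        Nat.card {z : (Fin n → K) × (Fin r → K) // ∑ i, z.2 i * aeval z.1 (f i) = 0} := by
      refine Nat.card_congr ((Equiv.sumArrowEquivProdArrow (Fin n) (Fin r) K).subtypeEquiv
        fun v => ?_)
      simp only [g, map_sum, map_mul, aeval_X, aeval_rename]
      rfl
    have e3 : Nat.card {x : Fin n → K // (fun i => aeval x (f i)) = 0} = points f K := by
      unfold points
      refine Nat.card_congr (Equiv.subtypeEquivRight fun x => ?_)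
      exact _root_.funext_iff
    rw [pow_one, e2, e1, e3, Nat.card_fun, Nat.card_eq_fintype_card (α := Fin n),
      Fintype.card_fin, Fintype.card_fin]
    push_cast
    ring

theorem HP.all {d P : ℕ} (h : HP d P) (hd3 : 3 ≤ d) (hd : d ≤ P) {n r : ℕ}
    (f : Fin r → MvPolynomial (Fin n) ℤ) : Continues P (fun K _ => (points f K : ℤ)) :=
  all_of_quad h.pow (fun _ _ _ _ a b c haff => h.quad hd3 hd a b c haff) f

end Pool.Agent.E8helper17.FZ
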