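import Pool.Agent.E8helper17.FZ.Cnt

set_option autoImplicit false

namespace Pool.Agent.E8helper17.FZ

open MvPolynomial Finset

/-- affine polynomials -/
inductive IsAff {ρ : Type} : MvPolynomial ρ ℤ → Prop
  | const (a : ℤ) : IsAff (C a)
  | var (i : ρ) : IsAff (X i)
  | add {p q : MvPolynomial ρ ℤ} : IsAff p → IsAff q → IsAff (p + q)
  | neg {p : MvPolynomial ρ ℤ} : IsAff p → IsAff (-p)

theorem IsAff.rename {ρ ρ' : Type} (φ : ρ → ρ') {p : MvPolynomial ρ ℤ} (h : IsAff p) :
    IsAff (MvPolynomial.rename φ p) := by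
  induction h with
  | const a => rw [rename_C]; exact .const a
  | var i => rw [rename_X]; exact .var _
  | add _ _ h1 h2 => rw [map_add]; exact .add h1 h2
  | neg _ h1 => rw [map_neg]; exact .neg h1

theorem IsAff.zero {ρ : Type} : IsAff (0 : MvPolynomial ρ ℤ) := by
  have := IsAff.const (ρ := ρ) 0
  rwa [C_0] at this

/-- linear forms with integral coefficients -/
def lin {ρ K : Type} [Fintype ρ] [Field K] (h : ρ → ℤ) (v : ρ → K) : K := ∑ a, (h a : K) * v a

theorem IsAff.hom {ρ : Type} [Fintype ρ] {p : MvPolynomial ρ ℤ} (h : IsAff p) :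
    ∃ l : Option ρ → ℤ, ∀ (K : Type) [Field K] (v : Option ρ → K) (w : ρ → K),
      (∀ i, v (some i) = v none * w i) → lin l v = v none * aeval w p := by
  classical
  induction h with
  | const a =>
    refine ⟨Pi.single none a, fun K _ v w _ => ?_⟩
    unfold lin
    rw [Finset.sum_eq_single none]
    · rw [Pi.single_eq_same, aeval_C]
      simp [mul_comm]
    · intro b _ hb; rw [Pi.single_eq_of_ne hb]; simp
    · intro h; exact absurd (mem_univ _) h
  | var i =>
    refine ⟨Pi.single (some i) 1, fun K _ v w hw => ?_⟩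
    unfold lin
    rw [Finset.sum_eq_single (some i)]
    · rw [Pi.single_eq_same, aeval_X, hw i]
      simp
    · intro b _ hb; rw [Pi.single_eq_of_ne hb]; simp
    · intro h; exact absurd (mem_univ _) h
  | add _ _ h1 h2 =>
    obtain ⟨l1, h1⟩ := h1
    obtain ⟨l2, h2⟩ := h2
    refine ⟨l1 + l2, fun K _ v w hw => ?_⟩
    rw [map_add, mul_add, ← h1 K v w hw, ← h2 K v w hw]
    unfold lin
    rw [← sum_add_distrib]
    refine sum_congr rfl fun a _ => ?_
    simp [add_mul]
  | neg _ h1 =>
    obtain ⟨l1, h1⟩ := h1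
    refine ⟨-l1, fun K _ v w hw => ?_⟩
    rw [map_neg, mul_neg, ← h1 K v w hw]
    unfold lin
    rw [← sum_neg_distrib]
    refine sum_congr rfl fun a _ => ?_
    simp

/-- a polynomial computed by quadratic equations for auxiliary variables -/
def Rep {σ : Type} (f : MvPolynomial σ ℤ) : Prop :=
  ∃ (τ : Type) (_ : Fintype τ) (a b c : τ → MvPolynomial (σ ⊕ τ) ℤ) (o : MvPolynomial (σ ⊕ τ) ℤ),
    (∀ j, IsAff (a j) ∧ IsAff (b j) ∧ IsAff (c j)) ∧ IsAff o ∧
    ∀ (K : Type) [Field K] (x : σ → K), ∃ z : τ → K,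
      (∀ z' : τ → K, (∀ j, z' j = aeval (Sum.elim x z') (a j) * aeval (Sum.elim x z') (b j) +
        aeval (Sum.elim x z') (c j)) ↔ z' = z) ∧ aeval (Sum.elim x z) o = aeval x f

theorem rep_all {σ : Type} (f : MvPolynomial σ ℤ) : Rep f := by
  classical
  induction f using MvPolynomial.induction_on with
  | C a =>
    refine ⟨Empty, inferInstance, Empty.elim, Empty.elim, Empty.elim, C a, fun j => j.elim,
      .const a, fun K _ x => ⟨Empty.elim, fun z' => ⟨fun _ => ?_, fun _ j => j.elim⟩, ?_⟩⟩
    · ext j; exact j.elim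
    · rw [aeval_C, aeval_C]
  | add p q hp hq =>
    obtain ⟨τ1, _, a1, b1, c1, o1, h1, ho1, g1⟩ := hp
    obtain ⟨τ2, _, a2, b2, c2, o2, h2, ho2, g2⟩ := hq
    let φ1 : σ ⊕ τ1 → σ ⊕ (τ1 ⊕ τ2) := Sum.map id Sum.inl
    let φ2 : σ ⊕ τ2 → σ ⊕ (τ1 ⊕ τ2) := Sum.map id Sum.inr
    have e1 : ∀ {K : Type} (x : σ → K) (z : τ1 ⊕ τ2 → K),
        Sum.elim x z ∘ φ1 = Sum.elim x (z ∘ Sum.inl) := by
      intro K x z; ext i; rcases i with i | i <;> rfl
    have e2 : ∀ {K : Type} (x : σ → K) (z : τ1 ⊕ τ2 → K),
        Sum.elim x z ∘ φ2 = Sum.elim x (z ∘ Sum.inr) := by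
      intro K x z; ext i; rcases i with i | i <;> rfl
    refine ⟨τ1 ⊕ τ2, inferInstance,
      Sum.elim (fun j => rename φ1 (a1 j)) (fun j => rename φ2 (a2 j)),
      Sum.elim (fun j => rename φ1 (b1 j)) (fun j => rename φ2 (b2 j)),
      Sum.elim (fun j => rename φ1 (c1 j)) (fun j => rename φ2 (c2 j)),
      rename φ1 o1 + rename φ2 o2, ?_, ?_, ?_⟩
    · rintro (j | j)
      · exact ⟨(h1 j).1.rename _, (h1 j).2.1.rename _, (h1 j).2.2.rename _⟩
      · exact ⟨(h2 j).1.rename _, (h2 j).2.1.rename _, (h2 j).2.2.rename _⟩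
    · exact .add (ho1.rename _) (ho2.rename _)
    · intro K _ x
      obtain ⟨z1, k1, l1⟩ := g1 K x
      obtain ⟨z2, k2, l2⟩ := g2 K x
      refine ⟨Sum.elim z1 z2, fun z' => ?_, ?_⟩
      · constructor
        · intro h
          have i1 : z' ∘ Sum.inl = z1 := by
            rw [← k1]
            intro j
            have := h (Sum.inl j)
            simp only [Sum.elim_inl, aeval_rename, e1] at this
            exact this
          have i2 : z' ∘ Sum.inr = z2 := by
            rw [← k2]
            intro j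
            have := h (Sum.inr j)
            simp only [Sum.elim_inr, aeval_rename, e2] at this
            exact this
          rw [← i1, ← i2, Sum.elim_comp_inl_inr]
        · rintro rfl
          rintro (j | j)
          · simp only [Sum.elim_inl, aeval_rename, e1, Sum.elim_comp_inl]
            exact (k1 z1).2 rfl j
          · simp only [Sum.elim_inr, aeval_rename, e2, Sum.elim_comp_inr]
            exact (k2 z2).2 rfl j
      · rw [map_add, map_add, aeval_rename, aeval_rename, e1, e2, Sum.elim_comp_inl,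
          Sum.elim_comp_inr, l1, l2]
  | mul_X p i hp =>
    obtain ⟨τ1, _, a1, b1, c1, o1, h1, ho1, g1⟩ := hp
    let φ1 : σ ⊕ τ1 → σ ⊕ (τ1 ⊕ Unit) := Sum.map id Sum.inl
    have e1 : ∀ {K : Type} (x : σ → K) (z : τ1 ⊕ Unit → K),
        Sum.elim x z ∘ φ1 = Sum.elim x (z ∘ Sum.inl) := by
      intro K x z; ext i; rcases i with i | i <;> rfl
    refine ⟨τ1 ⊕ Unit, inferInstance,
      Sum.elim (fun j => rename φ1 (a1 j)) (fun _ => rename φ1 o1),
      Sum.elim (fun j => rename φ1 (b1 j)) (fun _ => X (Sum.inl i)),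
      Sum.elim (fun j => rename φ1 (c1 j)) (fun _ => 0),
      X (Sum.inr (Sum.inr ())), ?_, ?_, ?_⟩
    · rintro (j | j)
      · exact ⟨(h1 j).1.rename _, (h1 j).2.1.rename _, (h1 j).2.2.rename _⟩
      · exact ⟨ho1.rename _, .var _, .zero⟩
    · exact .var _
    · intro K _ x
      obtain ⟨z1, k1, l1⟩ := g1 K x
      refine ⟨Sum.elim z1 (fun _ => aeval x p * x i), fun z' => ?_, ?_⟩
      · constructor
        · intro h
          have i1 : z' ∘ Sum.inl = z1 := by
            rw [← k1]
            intro j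
            have := h (Sum.inl j)
            simp only [Sum.elim_inl, aeval_rename, e1] at this
            exact this
          have i2 : z' (Sum.inr ()) = aeval x p * x i := by
            have := h (Sum.inr ())
            simp only [Sum.elim_inr, aeval_rename, e1, aeval_X, map_zero, add_zero,
              Sum.elim_inl] at this
            rw [this, i1, l1]
          ext j
          rcases j with j | j
          · exact congrFun i1 j
          · exact i2
        · rintro rfl
          rintro (j | j)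
          · simp only [Sum.elim_inl, aeval_rename, e1, Sum.elim_comp_inl]
            exact (k1 z1).2 rfl j
          · simp only [Sum.elim_inr, aeval_rename, e1, Sum.elim_comp_inl, aeval_X, map_zero,
              add_zero, Sum.elim_inl, l1]
      · rw [aeval_X, map_mul, aeval_X]
        rfl

end Pool.Agent.E8helper17.FZ
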