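import Pool.Agent.E8helper17.FZ.Rec

set_option autoImplicit false

namespace Pool.Agent.E8helper17.FZ

open Finset

section
variable {K : Type} [Field K] [Finite K]

theorem lin_count {ι : Type} [Fintype ι] (g : ι → K) (hg : g ≠ 0) :
    Nat.card K * Nat.card {y : ι → K // ∑ i, y i * g i = 0} = Nat.card K ^ Fintype.card ι := by
  classical
  let φ : (ι → K) →ₗ[K] K :=
    { toFun := fun y => ∑ i, y i * g i
      map_add' := fun a b => by simp [add_mul, sum_add_distrib]
      map_smul' := fun c a => by simp [mul_sum, mul_assoc] }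
  have hφ : Function.Surjective φ := by
    obtain ⟨i, hi⟩ : ∃ i, g i ≠ 0 := by
      by_contra h
      push Not at h
      exact hg (funext h)
    intro c
    refine ⟨Pi.single i (c / g i), ?_⟩
    show ∑ j, (Pi.single i (c / g i) : ι → K) j * g j = c
    rw [Finset.sum_eq_single i]
    · rw [Pi.single_eq_same]; field_simp
    · intro j _ hj; rw [Pi.single_eq_of_ne hj, zero_mul]
    · intro h; exact absurd (mem_univ i) h
  have h1 : Nat.card ((ι → K) ⧸ LinearMap.ker φ) = Nat.card K :=
    Nat.card_congr (LinearMap.quotKerEquivOfSurjective φ hφ).toEquiv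
  have h2 : Nat.card (ι → K) = Nat.card (LinearMap.ker φ) * Nat.card ((ι → K) ⧸ LinearMap.ker φ) :=
    Submodule.card_eq_card_quotient_mul_card (LinearMap.ker φ)
  have h3 : Nat.card (ι → K) = Nat.card K ^ Fintype.card ι := by
    rw [Nat.card_fun, Nat.card_eq_fintype_card (α := ι)]
  have h4 : Nat.card (LinearMap.ker φ) = Nat.card {y : ι → K // ∑ i, y i * g i = 0} := rfl
  rw [← h3, h2, h1, h4, mul_comm]

theorem sum_two {X : Type} [Fintype X] (p : X → Prop) [DecidablePred p] (a b : ℤ) :
    ∑ x, (if p x then a else b) = b * Nat.card X + (a - b) * Nat.card {x : X // p x} := by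
  classical
  rw [Finset.sum_ite, Finset.sum_const, Finset.sum_const, Nat.card_eq_fintype_card,
    Nat.card_eq_fintype_card, Fintype.card_subtype]
  have h := Finset.card_filter_add_card_filter_not (s := (univ : Finset X)) p
  have h' : ((univ.filter p).card : ℤ) + ((univ.filter fun x => ¬ p x).card : ℤ) = Fintype.card X := by
    rw [← Finset.card_univ]; exact_mod_cast h
  simp only [nsmul_eq_mul]
  linear_combination b * h'

theorem card_fiber {X Y : Type} [Finite X] [Finite Y] (p : X → Y → Prop) :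
    Nat.card {z : X × Y // p z.1 z.2} = ∑ᶠ x, Nat.card {y : Y // p x y} := by
  classical
  have := Fintype.ofFinite X
  rw [Nat.card_congr (Equiv.subtypeProdEquivSigmaSubtype p), Nat.card_sigma,
    finsum_eq_sum_of_fintype]

/-- adding the coefficients `y` -/
theorem y_trick {X ι : Type} [Fintype X] [Fintype ι] (g : X → ι → K) :
    ((Nat.card K : ℤ)) * Nat.card {z : X × (ι → K) // ∑ i, z.2 i * g z.1 i = 0} =
      (Nat.card K : ℤ) ^ Fintype.card ι * Nat.card X +
      ((Nat.card K : ℤ) ^ (Fintype.card ι + 1) - (Nat.card K : ℤ) ^ Fintype.card ι) *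
        Nat.card {x : X // g x = 0} := by
  classical
  have h1 := card_fiber (X := X) (Y := ι → K) (fun x y => ∑ i, y i * g x i = 0)
  rw [finsum_eq_sum_of_fintype] at h1
  have h2 : ∀ x : X, (Nat.card K : ℤ) * (Nat.card {y : ι → K // ∑ i, y i * g x i = 0} : ℤ) =
      if g x = 0 then (Nat.card K : ℤ) ^ (Fintype.card ι + 1) else (Nat.card K : ℤ) ^ Fintype.card ι := by
    intro x
    split_ifs with hx
    · have e : Nat.card {y : ι → K // ∑ i, y i * g x i = 0} = Nat.card K ^ Fintype.card ι := by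
        rw [hx]
        simp only [Pi.zero_apply, mul_zero, sum_const_zero]
        rw [Nat.card_congr (Equiv.subtypeUnivEquiv fun _ => trivial), Nat.card_fun,
          Nat.card_eq_fintype_card (α := ι)]
      rw [e]; push_cast; ring
    · exact_mod_cast lin_count (g x) hx
  rw [h1]
  push_cast
  rw [mul_sum, sum_congr rfl fun x _ => h2 x, sum_two]

/-- one more variable -/
theorem t_count {W : Type} [Finite W] (Φ : K → W → Prop) (c : ℤ)
    (hc : ∀ t : K, t ≠ 0 → (Nat.card {w : W // Φ t w} : ℤ) = c) :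
    (Nat.card {z : K × W // Φ z.1 z.2} : ℤ) =
      Nat.card {w : W // Φ 0 w} + ((Nat.card K : ℤ) - 1) * c := by
  classical
  have := Fintype.ofFinite K
  have h1 := card_fiber (X := K) (Y := W) Φ
  rw [finsum_eq_sum_of_fintype] at h1
  rw [h1]
  push_cast
  have h2 : ∀ t : K, (Nat.card {w : W // Φ t w} : ℤ) =
      if t = 0 then (Nat.card {w : W // Φ 0 w} : ℤ) else c := by
    intro t
    split_ifs with ht
    · rw [ht]
    · exact hc t ht
  rw [Finset.sum_congr rfl fun t _ => h2 t, sum_two]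
  have h3 : Nat.card {x : K // x = 0} = 1 := by
    rw [Nat.card_eq_one_iff_unique]
    exact ⟨⟨fun a b => Subtype.ext (a.2.trans b.2.symm)⟩, ⟨⟨0, rfl⟩⟩⟩
  rw [h3]
  push_cast
  ring

end

/-! ### from counts to continuations -/

theorem card_gf (p : Nat.Primes) (k : ℕ) :
    (haveI : Fact (p : ℕ).Prime := ⟨p.2⟩; Nat.card (GaloisField (p : ℕ) (k + 1))) = (p : ℕ) ^ (k + 1) := by
  haveI : Fact (p : ℕ).Prime := ⟨p.2⟩
  exact GaloisField.card (p : ℕ) (k + 1) (Nat.succ_ne_zero k)

theorem growth_of_le {N : (K : Type) → [Field K] → ℤ} {n : ℕ}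
    (h : ∀ (K : Type) [Field K] [Finite K], |N K| ≤ (Nat.card K : ℤ) ^ n) : Growth N := by
  refine ⟨1, n, fun p k => ?_⟩
  haveI : Fact (p : ℕ).Prime := ⟨p.2⟩
  have h1 := h (GaloisField (p : ℕ) (k + 1))
  rw [card_gf p k] at h1
  have h2 : |atq N p k| ≤ (((p : ℕ) : ℤ) ^ (k + 1)) ^ n := by
    refine h1.trans (le_of_eq ?_)
    push_cast
    rfl
  have h3 : ((|atq N p k| : ℤ) : ℝ) ≤ (((((p : ℕ) : ℤ) ^ (k + 1)) ^ n : ℤ) : ℝ) := by exact_mod_cast h2
  push_cast at h3
  rw [one_mul]
  exact h3

theorem continues_of_rel {P u : ℕ} {N N' A : (K : Type) → [Field K] → ℤ}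
    (hN : Growth N) (hA : Continues P A) (hN' : Continues P N')
    (hrel : ∀ (K : Type) [Field K] [Finite K], N' K = A K +
      ((Nat.card K : ℤ) ^ (u + 1) - (Nat.card K : ℤ) ^ u) * N K) :
    Continues P N := by
  refine continues_of_rec (u := u) hN hA hN' fun p k _ => ?_
  haveI : Fact (p : ℕ).Prime := ⟨p.2⟩
  have h := hrel (GaloisField (p : ℕ) (k + 1))
  rw [card_gf p k] at h
  unfold atq
  rw [h]
  push_cast
  rfl

theorem continues_congr {P : ℕ} {N N' : (K : Type) → [Field K] → ℤ} (h : Continues P N)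
    (he : ∀ (K : Type) [Field K] [Finite K], P < ringChar K → N K = N' K) : Continues P N' := by
  refine h.congr fun p k hp => ?_
  haveI : Fact (p : ℕ).Prime := ⟨p.2⟩
  refine he (GaloisField (p : ℕ) (k + 1)) ?_
  rw [ringChar.eq (GaloisField (p : ℕ) (k + 1)) (p : ℕ)]
  exact hp

/-- multiplication by a power of `q` -/
theorem Continues.shift {P : ℕ} {N : (K : Type) → [Field K] → ℤ} (h : Continues P N) (m : ℕ) :
    Continues P (fun K _ => (Nat.card K : ℤ) ^ m * N K) := by
  obtain ⟨F, hF, σ, h1⟩ := h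
  have e : ∀ (s : ℂ) (x : Nat.Primes × ℕ), term P (fun K _ => (Nat.card K : ℤ) ^ m * N K) s x =
      term P N (s - m) x := by
    intro s x
    unfold term
    split_ifs with hP
    · have hp : ((x.1 : ℕ) : ℂ) ≠ 0 := by exact_mod_cast x.1.2.ne_zero
      have e1 : atq (fun K _ => (Nat.card K : ℤ) ^ m * N K) x.1 x.2 =
          (((x.1 : ℕ) : ℤ) ^ (x.2 + 1)) ^ m * atq N x.1 x.2 := by
        unfold atq
        simp only []
        rw [card_gf x.1 x.2]
        push_cast
        rfl
      rw [e1]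
      have e2 : ((x.1 : ℕ) : ℂ) ^ (-(s - m)) = ((x.1 : ℕ) : ℂ) ^ (-s) * ((x.1 : ℕ) : ℂ) ^ m := by
        rw [neg_sub, sub_eq_add_neg, add_comm, Complex.cpow_add _ _ hp, Complex.cpow_natCast]
      rw [e2, mul_pow]
      push_cast
      rw [← pow_mul, ← pow_mul, mul_comm m (x.2 + 1)]
      ring
    · rfl
  refine ⟨fun s => F (s - m), fun w _ => ?_, σ + m, fun s hs => ?_⟩
  · have := mero_shift (R := F) (a := -(m : ℂ)) (w := w) (hF _ (Set.mem_univ _))
    simpa only [sub_eq_add_neg] using this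
  · have hs' : σ < (s - m).re := by simp only [Complex.sub_re, Complex.natCast_re]; linarith
    obtain ⟨a1, a2⟩ := h1 (s - m) hs'
    refine ⟨a1.congr fun x => (e s x).symm, ?_⟩
    show F (s - m) = _
    rw [a2]
    unfold Z
    congr 1
    exact tsum_congr fun x => (e s x).symm

end Pool.Agent.E8helper17.FZ
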