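import Mathlib

/-!
# Zeta functions of systems of polynomial equations over the integers: definitions
-/

set_option autoImplicit false

namespace Pool.Agent.E8helper17.FZ

open MvPolynomial

/-- The number of the solutions in the field `K` of a system `f` (indexed by `ι`) of polynomial
equations with integral coefficients in the variables `σ`. -/
noncomputable def points {σ ι : Type} (f : ι → MvPolynomial σ ℤ) (K : Type) [Field K] : ℕ :=
  Nat.card {x : σ → K // ∀ i, aeval x (f i) = 0}

/-- A function `N` on the class of fields, evaluated at the field with `p ^ (k + 1)` elements. -/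
noncomputable def atq (N : (K : Type) → [Field K] → ℤ) (p : Nat.Primes) (k : ℕ) : ℤ :=
  haveI : Fact (p : ℕ).Prime := ⟨p.2⟩
  N (GaloisField (p : ℕ) (k + 1))

/-- The term `N(𝔽_q) / (k + 1) * q ^ (-s)`, `q = p ^ (k + 1)`, for `p > P`, and `0` for `p ≤ P`. -/
noncomputable def term (P : ℕ) (N : (K : Type) → [Field K] → ℤ) (s : ℂ) (x : Nat.Primes × ℕ) : ℂ :=
  if P < (x.1 : ℕ) then (atq N x.1 x.2 : ℂ) / ((x.2 : ℂ) + 1) * (((x.1 : ℕ) : ℂ) ^ (-s)) ^ (x.2 + 1)
  else 0

/-- The Dirichlet series `∏_{p > P} exp (∑_{k ≥ 1} N(𝔽_{p^k}) p ^ (- k s) / k)`. -/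
noncomputable def Z (P : ℕ) (N : (K : Type) → [Field K] → ℤ) (s : ℂ) : ℂ :=
  Complex.exp (∑' x : Nat.Primes × ℕ, term P N s x)

/-- `Z P N` has a meromorphic continuation to the complex plane: there is a meromorphic function
on `ℂ` which in some half-plane `Re s > σ`, where the series converges absolutely, agrees with
`Z P N`. -/
def Continues (P : ℕ) (N : (K : Type) → [Field K] → ℤ) : Prop :=
  ∃ F : ℂ → ℂ, MeromorphicOn F Set.univ ∧ ∃ σ : ℝ, ∀ s : ℂ, σ < s.re →
    Summable (term P N s) ∧ F s = Z P N s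

/-- `N` comes from counting points: for all the finite fields `K` with `q` elements and of
characteristic `> P`, `B(q) N(K) = ∑ i, A i (q) * #{solutions in K of the system f i}`, with a monic
polynomial `B` and polynomials `A i` with integral coefficients. (Examples: `N(K) = #𝒳(K)` for a
scheme `𝒳` of finite type over `ℤ`, or for a quotient of such a scheme by a free action of `GL_m`.) -/
def FromPoints (P : ℕ) (N : (K : Type) → [Field K] → ℤ) : Prop :=
  ∃ (B : Polynomial ℤ) (m : ℕ) (A : Fin m → Polynomial ℤ) (n r : Fin m → ℕ)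
    (f : ∀ i, Fin (r i) → MvPolynomial (Fin (n i)) ℤ), B.Monic ∧
    ∀ (K : Type) [Field K] [Finite K], P < ringChar K →
      B.eval (Nat.card K : ℤ) * N K = ∑ i, (A i).eval (Nat.card K : ℤ) * (points (f i) K : ℤ)

/-- The multilinear form `∑_{s ∈ S} x_{1, s 1} ⋯ x_{d, s d}` in the `d n` variables `x_{k, i}`, for a set
`S` of `d`-tuples. -/
noncomputable def tensorForm {d n : ℕ} (S : Finset (Fin d → Fin n)) :
    MvPolynomial (Fin d × Fin n) ℤ :=
  ∑ s ∈ S, ∏ k, X (k, s k)

/-- The form `∑ j, ± (∑ i, L j i * X i) ^ d`, a signed sum of `d`-th powers of linear forms with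
integral coefficients: the equation of the linear section `z j = ∑ i, L j i * X i` of the Fermat
hypersurface `∑ j, ± z j ^ d = 0`. -/
noncomputable def powerForm (d : ℕ) {n a : ℕ} (ε : Fin a → ℤˣ) (L : Fin a → Fin n → ℤ) :
    MvPolynomial (Fin n) ℤ :=
  ∑ j, C ((ε j : ℤˣ) : ℤ) * (∑ i, C (L j i) * X i) ^ d

end Pool.Agent.E8helper17.FZ
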