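import Pool.Agent.E8helper17.FZ.Ten

set_option autoImplicit false

namespace Pool.Agent.E8helper17.FZ

open Finset MvPolynomial

theorem card_sub_ite {X : Type} [Fintype X] (p : X → Prop) [DecidablePred p] :
    (Nat.card {x : X // p x} : ℤ) = ∑ x, if p x then (1 : ℤ) else 0 := by
  rw [Nat.card_eq_fintype_card, Fintype.card_subtype, Finset.sum_boole]

theorem gadget_fibre {K : Type} [Field K] [Finite K] [DecidableEq K] (c l : K) :
    (Nat.card {u : Fin 2 → K // c + l * (u 0 * u 1) = 0} : ℤ) =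
      ((Nat.card K : ℤ) - 1) * (1 - if l = 0 then 1 else 0) +
      (Nat.card K : ℤ) * (if c = 0 then 1 else 0) +
      ((Nat.card K : ℤ) ^ 2 - Nat.card K) * (if c = 0 ∧ l = 0 then 1 else 0) := by
  have h0 : Nat.card {u : Fin 2 → K // c + l * (u 0 * u 1) = 0} =
      Nat.card {z : K × K // c + l * (z.1 * z.2) = 0} := by
    refine Nat.card_congr ((finTwoArrowEquiv K).subtypeEquiv fun u => ?_)
    rfl
  have h1 := t_count (K := K) (W := K) (fun y z => c + l * (y * z) = 0)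
    (if l = 0 then (if c = 0 then (Nat.card K : ℤ) else 0) else 1) ?_
  · have h2 : (Nat.card {z : K // c + l * (0 * z) = 0} : ℤ) = if c = 0 then (Nat.card K : ℤ) else 0 := by
      split_ifs with hc
      · rw [Nat.card_congr (Equiv.subtypeUnivEquiv fun z => by simp [hc])]
      · have : IsEmpty {z : K // c + l * (0 * z) = 0} := ⟨fun z => hc (by simpa using z.2)⟩
        rw [Nat.card_of_isEmpty]; rfl
    rw [h0, h1, h2]
    by_cases hl : l = 0
    · by_cases hc : c = 0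
      · simp [hl, hc]; ring
      · simp [hl, hc]
    · by_cases hc : c = 0
      · simp [hl, hc]; ring
      · simp [hl, hc]
  · intro t ht
    split_ifs with hl hc
    · rw [Nat.card_congr (Equiv.subtypeUnivEquiv fun z => by simp [hc, hl])]
    · have : IsEmpty {z : K // c + l * (t * z) = 0} := ⟨fun z => hc (by simpa [hl] using z.2)⟩
      rw [Nat.card_of_isEmpty]; rfl
    · have : Nat.card {z : K // c + l * (t * z) = 0} = 1 := by
        rw [Nat.card_eq_one_iff_unique]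
        refine ⟨⟨fun a b => Subtype.ext ?_⟩, ⟨⟨-c / (l * t), ?_⟩⟩⟩
        · have h3 := a.2
          have h4 := b.2
          have h5 : l * t * (a.1 - b.1) = 0 := by linear_combination h3 - h4
          have h6 := (mul_eq_zero.1 h5).resolve_left (mul_ne_zero hl ht)
          exact sub_eq_zero.1 h6
        · field_simp
          ring
      rw [this]
      rfl

/-- constraints -/
def Con (P m : ℕ) : Prop := ∀ (V : Type) [Fintype V] [DecidableEq V] (χ : V → Fin 3)
  (S : Finset (Fin 3 → V)), (∀ s ∈ S, ∀ k, χ (s k) = k) → ∀ (L : List (Finset V)), L.length = m →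
    (∀ l ∈ L, ∃ κ, ∀ i ∈ l, χ i = κ) →
    Continues P (fun K _ => (Nat.card {x : V → K // ∑ s ∈ S, ∏ k, x (s k) = 0 ∧
      ∀ l ∈ L, ∑ i ∈ l, x i = 0} : ℤ))

theorem fin3_cases (κ k : Fin 3) (h1 : k ≠ κ) (h2 : k ≠ κ + 1) : k = κ + 2 := by
  revert κ k
  decide

theorem fin3_succ (κ : Fin 3) : κ + 1 ≠ κ := by
  revert κ
  decide

/-- the new hyperedges -/
def edge {V : Type} (κ : Fin 3) (i : V) : Fin 3 → V ⊕ Fin 2 :=
  fun k => if k = κ then Sum.inl i else if k = κ + 1 then Sum.inr 0 else Sum.inr 1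

theorem prod_edge {V K : Type} [Field K] (κ : Fin 3) (i : V) (x : V ⊕ Fin 2 → K) :
    ∏ k, x (edge κ i k) = x (Sum.inl i) * (x (Sum.inr 0) * x (Sum.inr 1)) := by
  rw [Fin.prod_univ_three]
  fin_cases κ
  · simp [edge]; ring
  · simp [edge]; ring
  · simp [edge]; ring

/-- the new hypergraph -/
def newS {V : Type} [DecidableEq V] (κ : Fin 3) (S : Finset (Fin 3 → V)) (l : Finset V) :
    Finset (Fin 3 → V ⊕ Fin 2) :=
  S.image (fun s k => Sum.inl (s k)) ∪ l.image (edge κ)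

theorem sum_newS {V : Type} [DecidableEq V] (κ : Fin 3) (S : Finset (Fin 3 → V)) (l : Finset V)
    {K : Type} [Field K] (x : V ⊕ Fin 2 → K) :
    ∑ s ∈ newS κ S l, ∏ k, x (s k) = ∑ s ∈ S, ∏ k, x (Sum.inl (s k)) +
      (∑ i ∈ l, x (Sum.inl i)) * (x (Sum.inr 0) * x (Sum.inr 1)) := by
  classical
  unfold newS
  rw [Finset.sum_union, Finset.sum_image, Finset.sum_image, sum_mul]
  · congr 1
    exact Finset.sum_congr rfl fun i _ => prod_edge κ i x
  · intro i _ j _ hij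
    have := congrFun hij κ
    simpa [edge] using this
  · intro s _ t _ hst
    ext k
    exact Sum.inl_injective (congrFun hst k)
  · rw [Finset.disjoint_left]
    intro e he he'
    obtain ⟨s, _, rfl⟩ := Finset.mem_image.1 he
    obtain ⟨i, _, hi⟩ := Finset.mem_image.1 he'
    have := congrFun hi (κ + 1)
    have hk : κ + 1 ≠ κ := fin3_succ κ
    simp [edge, hk] at this

theorem col_newS {V : Type} [DecidableEq V] (χ : V → Fin 3) (κ : Fin 3) (S : Finset (Fin 3 → V))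
    (hS : ∀ s ∈ S, ∀ k, χ (s k) = k) (l : Finset V) (hl : ∀ i ∈ l, χ i = κ) :
    ∀ s ∈ newS κ S l, ∀ k, (Sum.elim χ ![κ + 1, κ + 2] : V ⊕ Fin 2 → Fin 3) (s k) = k := by
  intro s hs k
  rcases Finset.mem_union.1 hs with hs | hs
  · obtain ⟨t, ht, rfl⟩ := Finset.mem_image.1 hs
    exact hS t ht k
  · obtain ⟨i, hi, rfl⟩ := Finset.mem_image.1 hs
    unfold edge
    split_ifs with h1 h2
    · rw [Sum.elim_inl, hl i hi, h1]
    · rw [h2]; rfl
    · rw [fin3_cases κ k h1 h2]; rfl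

theorem gadget_count {V : Type} [Fintype V] [DecidableEq V] (κ : Fin 3) (S : Finset (Fin 3 → V))
    (l : Finset V) (L : List (Finset V)) (K : Type) [Field K] [Finite K] :
    (Nat.card {x : V ⊕ Fin 2 → K // ∑ s ∈ newS κ S l, ∏ k, x (s k) = 0 ∧
      ∀ l' ∈ L.map (fun l' => l'.image Sum.inl), ∑ i ∈ l', x i = 0} : ℤ) =
    ((Nat.card K : ℤ) - 1) * ((Nat.card {x : V → K // ∑ s ∈ (∅ : Finset (Fin 3 → V)), ∏ k, x (s k) = 0 ∧
        ∀ l' ∈ L, ∑ i ∈ l', x i = 0} : ℤ) -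
      (Nat.card {x : V → K // ∑ s ∈ (∅ : Finset (Fin 3 → V)), ∏ k, x (s k) = 0 ∧
        ∀ l' ∈ l :: L, ∑ i ∈ l', x i = 0} : ℤ)) +
    (Nat.card K : ℤ) * (Nat.card {x : V → K // ∑ s ∈ S, ∏ k, x (s k) = 0 ∧
        ∀ l' ∈ L, ∑ i ∈ l', x i = 0} : ℤ) +
    ((Nat.card K : ℤ) ^ 2 - Nat.card K) * (Nat.card {x : V → K // ∑ s ∈ S, ∏ k, x (s k) = 0 ∧
        ∀ l' ∈ l :: L, ∑ i ∈ l', x i = 0} : ℤ) := by
  classical
  have := Fintype.ofFinite K
  have h1 : Nat.card {x : V ⊕ Fin 2 → K // ∑ s ∈ newS κ S l, ∏ k, x (s k) = 0 ∧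
      ∀ l' ∈ L.map (fun l' => l'.image Sum.inl), ∑ i ∈ l', x i = 0} =
      Nat.card {z : (V → K) × (Fin 2 → K) // (∑ s ∈ S, ∏ k, z.1 (s k) +
        (∑ i ∈ l, z.1 i) * (z.2 0 * z.2 1) = 0) ∧ ∀ l' ∈ L, ∑ i ∈ l', z.1 i = 0} := by
    refine Nat.card_congr ((Equiv.sumArrowEquivProdArrow V (Fin 2) K).subtypeEquiv fun x => ?_)
    rw [sum_newS, List.forall_mem_map]
    refine and_congr Iff.rfl (forall₂_congr fun l' _ => ?_)
    rw [Finset.sum_image (fun _ _ _ _ h => Sum.inl_injective h)]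
    rfl
  have h2 := card_fiber (X := V → K) (Y := Fin 2 → K) (fun x u => (∑ s ∈ S, ∏ k, x (s k) +
        (∑ i ∈ l, x i) * (u 0 * u 1) = 0) ∧ ∀ l' ∈ L, ∑ i ∈ l', x i = 0)
  rw [finsum_eq_sum_of_fintype] at h2
  rw [h1, h2]
  push_cast
  rw [card_sub_ite, card_sub_ite, card_sub_ite, card_sub_ite, ← Finset.sum_sub_distrib, mul_sum,
    mul_sum, mul_sum, ← Finset.sum_add_distrib, ← Finset.sum_add_distrib]
  refine Finset.sum_congr rfl fun x _ => ?_
  by_cases hL : ∀ l' ∈ L, ∑ i ∈ l', x i = 0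
  · have e1 : Nat.card {u : Fin 2 → K // (∑ s ∈ S, ∏ k, x (s k) +
        (∑ i ∈ l, x i) * (u 0 * u 1) = 0) ∧ ∀ l' ∈ L, ∑ i ∈ l', x i = 0} =
        Nat.card {u : Fin 2 → K // ∑ s ∈ S, ∏ k, x (s k) + (∑ i ∈ l, x i) * (u 0 * u 1) = 0} :=
      Nat.card_congr (Equiv.subtypeEquivRight fun u => and_iff_left hL)
    rw [e1, gadget_fibre]
    have e2 : (∀ l' ∈ l :: L, ∑ i ∈ l', x i = 0) ↔ ∑ i ∈ l, x i = 0 :=
      List.forall_mem_cons.trans (and_iff_left hL)
    have e3 : (∀ l' ∈ L, ∑ i ∈ l', x i = 0) = True := eq_true hL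
    simp only [e2, e3, Finset.sum_empty, true_and, and_true, if_true]
  · have : IsEmpty {u : Fin 2 → K // (∑ s ∈ S, ∏ k, x (s k) +
        (∑ i ∈ l, x i) * (u 0 * u 1) = 0) ∧ ∀ l' ∈ L, ∑ i ∈ l', x i = 0} :=
      ⟨fun u => hL u.2.2⟩
    rw [Nat.card_of_isEmpty]
    have e2 : ¬ (∀ l' ∈ l :: L, ∑ i ∈ l', x i = 0) := by
      rw [List.forall_mem_cons]
      exact fun h => hL h.2
    simp [hL]

theorem Col.con {P : ℕ} (h : Col 3 P) (m : ℕ) : Con P m := by
  classical
  induction m with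
  | zero =>
    intro V _ _ χ S hS L hL _
    have hL0 : L = [] := List.length_eq_zero_iff.1 hL
    subst hL0
    refine continues_congr (h V χ S hS) fun K _ _ _ => ?_
    congr 1
    exact Nat.card_congr (Equiv.subtypeEquivRight fun x => by simp)
  | succ m ih =>
    intro V _ _ χ S hS L hL hmono
    obtain ⟨l, L0, rfl⟩ := List.exists_cons_of_length_eq_add_one hL
    have hlen : L0.length = m := by simpa using hL
    obtain ⟨κ, hκ⟩ := hmono l (by simp)
    have hmono0 : ∀ l' ∈ L0, ∃ κ, ∀ i ∈ l', χ i = κ := fun l' hl' => hmono l' (by simp [hl'])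
    have hmono1 : ∀ l' ∈ L0.map (fun l' => l'.image (Sum.inl : V → V ⊕ Fin 2)),
        ∃ κ', ∀ i ∈ l', (Sum.elim χ ![κ + 1, κ + 2] : V ⊕ Fin 2 → Fin 3) i = κ' := by
      rw [List.forall_mem_map]
      intro l' hl'
      obtain ⟨κ', h'⟩ := hmono0 l' hl'
      refine ⟨κ', fun i hi => ?_⟩
      obtain ⟨j, hj, rfl⟩ := Finset.mem_image.1 hi
      exact h' j hj
    have hnil : ∀ s ∈ (∅ : Finset (Fin 3 → V)), ∀ k, χ (s k) = k := by simp
    -- the known counts
    have kD := ih V χ S hS L0 hlen hmono0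
    have kE := ih V χ ∅ hnil L0 hlen hmono0
    have kM := ih (V ⊕ Fin 2) _ (newS κ S l) (col_newS χ κ S hS l hκ)
      (L0.map (fun l' => l'.image Sum.inl)) (by simpa using hlen) hmono1
    have kM0 := ih (V ⊕ Fin 2) _ (newS κ ∅ l) (col_newS χ κ ∅ hnil l hκ)
      (L0.map (fun l' => l'.image Sum.inl)) (by simpa using hlen) hmono1
    have kE1 : Continues P (fun K _ => (Nat.card {x : V → K //
        ∑ s ∈ (∅ : Finset (Fin 3 → V)), ∏ k, x (s k) = 0 ∧
        ∀ l' ∈ l :: L0, ∑ i ∈ l', x i = 0} : ℤ)) := by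
      refine continues_of_monic (growth_card fun K _ x =>
        ∑ s ∈ (∅ : Finset (Fin 3 → V)), ∏ k, x (s k) = 0 ∧ ∀ l' ∈ l :: L0, ∑ i ∈ l', x i = 0)
        ((Polynomial.X - Polynomial.C 1) ^ 2) ((Polynomial.monic_X_sub_C 1).pow 2)
        (continues_congr (kM0.add (kE.poly_mul (1 - 2 * Polynomial.X))) fun K _ _ _ => ?_)
      rw [gadget_count]
      simp only [Polynomial.eval_sub, Polynomial.eval_pow, Polynomial.eval_X, Polynomial.eval_C,
        Polynomial.eval_mul, Polynomial.eval_one, Polynomial.eval_ofNat]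
      ring
    refine continues_of_monic (growth_card fun K _ x =>
        ∑ s ∈ S, ∏ k, x (s k) = 0 ∧ ∀ l' ∈ l :: L0, ∑ i ∈ l', x i = 0)
        (Polynomial.X * (Polynomial.X - Polynomial.C 1))
        (Polynomial.monic_X.mul (Polynomial.monic_X_sub_C 1))
        (continues_congr (((kM.add (kD.poly_mul (-Polynomial.X))).add
          (kE.poly_mul (1 - Polynomial.X))).add (kE1.poly_mul (Polynomial.X - 1)))
          fun K _ _ _ => ?_)
    rw [gadget_count]
    simp only [Polynomial.eval_sub, Polynomial.eval_neg, Polynomial.eval_X, Polynomial.eval_C,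
        Polynomial.eval_mul, Polynomial.eval_one]
    ring

end Pool.Agent.E8helper17.FZ
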