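import Pool.Agent.E8helper17.FZ.Mon

set_option autoImplicit false

namespace Pool.Agent.E8helper17.FZ

theorem one_le_q (p : Nat.Primes) (k n : ℕ) : (1 : ℝ) ≤ (((p : ℕ) : ℝ) ^ (k + 1)) ^ n := by
  have : (1 : ℝ) ≤ (p : ℕ) := by exact_mod_cast p.2.one_lt.le
  exact one_le_pow₀ (one_le_pow₀ this)

theorem Growth.nonneg {N : (K : Type) → [Field K] → ℤ} (h : Growth N) :
    ∃ (C : ℝ) (n : ℕ), 0 ≤ C ∧
      ∀ (p : Nat.Primes) (k : ℕ), |(atq N p k : ℝ)| ≤ C * (((p : ℕ) : ℝ) ^ (k + 1)) ^ n := by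
  obtain ⟨C, n, hC⟩ := h
  refine ⟨C, n, ?_, hC⟩
  have h2 : (0 : ℝ) ≤ C * ((((⟨2, Nat.prime_two⟩ : Nat.Primes) : ℕ) : ℝ) ^ (0 + 1)) ^ n :=
    (abs_nonneg _).trans (hC ⟨2, Nat.prime_two⟩ 0)
  exact nonneg_of_mul_nonneg_left h2 (lt_of_lt_of_le one_pos (one_le_q _ _ _))

theorem Growth.mono {N : (K : Type) → [Field K] → ℤ} {C : ℝ} {n m : ℕ} (hC0 : 0 ≤ C) (hnm : n ≤ m)
    (hC : ∀ (p : Nat.Primes) (k : ℕ), |(atq N p k : ℝ)| ≤ C * (((p : ℕ) : ℝ) ^ (k + 1)) ^ n)
    (p : Nat.Primes) (k : ℕ) : |(atq N p k : ℝ)| ≤ C * (((p : ℕ) : ℝ) ^ (k + 1)) ^ m := by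
  refine (hC p k).trans (mul_le_mul_of_nonneg_left ?_ hC0)
  refine pow_le_pow_right₀ ?_ hnm
  have := one_le_q p k 1
  simpa using this

theorem Growth.add {N N' : (K : Type) → [Field K] → ℤ} (h : Growth N) (h' : Growth N') :
    Growth (fun K _ => N K + N' K) := by
  obtain ⟨C, n, h0, hC⟩ := h.nonneg
  obtain ⟨C', n', h0', hC'⟩ := h'.nonneg
  refine ⟨C + C', max n n', fun p k => ?_⟩
  have e : atq (fun K _ => N K + N' K) p k = atq N p k + atq N' p k := rfl
  rw [e]
  push_cast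
  refine (abs_add_le _ _).trans ?_
  have h1 := Growth.mono h0 (le_max_left n n') hC p k
  have h2 := Growth.mono h0' (le_max_right n n') hC' p k
  rw [add_mul]
  exact add_le_add h1 h2

theorem Growth.monomial {N : (K : Type) → [Field K] → ℤ} (h : Growth N) (a : ℤ) (m : ℕ) :
    Growth (fun K _ => a * (Nat.card K : ℤ) ^ m * N K) := by
  obtain ⟨C, n, h0, hC⟩ := h.nonneg
  refine ⟨|(a : ℝ)| * C, m + n, fun p k => ?_⟩
  have e : atq (fun K _ => a * (Nat.card K : ℤ) ^ m * N K) p k =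
      a * (((p : ℕ) : ℤ) ^ (k + 1)) ^ m * atq N p k := by
    unfold atq
    simp only []
    rw [card_gf p k]
    push_cast
    rfl
  rw [e]
  push_cast
  rw [abs_mul, abs_mul, abs_of_nonneg (a := (((p : ℕ) : ℝ) ^ (k + 1)) ^ m) (by positivity),
    pow_add (((p : ℕ) : ℝ) ^ (k + 1)) m n]
  calc |(a : ℝ)| * (((p : ℕ) : ℝ) ^ (k + 1)) ^ m * |(atq N p k : ℝ)|
      ≤ |(a : ℝ)| * (((p : ℕ) : ℝ) ^ (k + 1)) ^ m * (C * (((p : ℕ) : ℝ) ^ (k + 1)) ^ n) :=
        mul_le_mul_of_nonneg_left (hC p k) (by positivity)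
    _ = _ := by ring

theorem Growth.zero : Growth (fun _ _ => 0) := ⟨0, 0, fun p k => by simp [atq]⟩

theorem Growth.poly {N : (K : Type) → [Field K] → ℤ} (h : Growth N) (A : Polynomial ℤ) :
    Growth (fun K _ => A.eval (Nat.card K : ℤ) * N K) := by
  induction A using Polynomial.induction_on' with
  | add p q hp hq =>
    have := hp.add hq
    simp only [Polynomial.eval_add, add_mul]
    exact this
  | monomial n a =>
    simp only [Polynomial.eval_monomial]
    exact h.monomial a n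

theorem Growth.sum {ι : Type} (S : Finset ι) {N : ι → (K : Type) → [Field K] → ℤ}
    (h : ∀ i ∈ S, Growth (N i)) : Growth (fun K _ => ∑ i ∈ S, N i K) := by
  classical
  induction S using Finset.induction_on with
  | empty => simpa using Growth.zero
  | insert a S ha ih =>
    simp only [Finset.sum_insert ha]
    exact (h a (Finset.mem_insert_self a S)).add
      (ih fun i hi => h i (Finset.mem_insert_of_mem hi))

theorem Growth.points {n r : ℕ} (f : Fin r → MvPolynomial (Fin n) ℤ) :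
    Growth (fun K _ => (points f K : ℤ)) := by
  refine growth_of_le (n := n) fun K _ _ => ?_
  rw [abs_of_nonneg (by positivity)]
  have h1 : FZ.points f K ≤ Nat.card (Fin n → K) := Finite.card_subtype_le _
  rw [Nat.card_fun, Nat.card_eq_fintype_card (α := Fin n), Fintype.card_fin] at h1
  exact_mod_cast h1

theorem Growth.div {P : ℕ} {N M : (K : Type) → [Field K] → ℤ} (hM : Growth M) (B : Polynomial ℤ)
    (hB : B ≠ 0) (h : ∀ (p : Nat.Primes) (k : ℕ), P < (p : ℕ) →
      B.eval (((p : ℕ) : ℤ) ^ (k + 1)) * atq N p k = atq M p k)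
    (h' : ∀ (p : Nat.Primes) (k : ℕ), ¬ P < (p : ℕ) → atq N p k = 0) : Growth N := by
  obtain ⟨C, n, h0, hC⟩ := hM.nonneg
  have hT : {x : Nat.Primes × ℕ | B.IsRoot (((x.1 : ℕ) : ℤ) ^ (x.2 + 1))}.Finite := by
    have h1 : {a : ℤ | B.IsRoot a}.Finite := Polynomial.finite_setOf_isRoot hB
    refine h1.preimage (f := fun x : Nat.Primes × ℕ => ((x.1 : ℕ) : ℤ) ^ (x.2 + 1)) ?_
    intro x _ y _ hxy
    apply pow_inj'
    simp only at hxy ⊢
    exact_mod_cast hxy
  refine ⟨C + ∑ x ∈ hT.toFinset, |(atq N x.1 x.2 : ℝ)|, n, fun p k => ?_⟩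
  have hs : 0 ≤ ∑ x ∈ hT.toFinset, |(atq N x.1 x.2 : ℝ)| := Finset.sum_nonneg fun _ _ => abs_nonneg _
  have hq := one_le_q p k n
  by_cases hP : P < (p : ℕ)
  · by_cases hr : B.IsRoot (((p : ℕ) : ℤ) ^ (k + 1))
    · have h3 : |(atq N p k : ℝ)| ≤ ∑ x ∈ hT.toFinset, |(atq N x.1 x.2 : ℝ)| :=
        Finset.single_le_sum (f := fun x : Nat.Primes × ℕ => |(atq N x.1 x.2 : ℝ)|)
          (fun _ _ => abs_nonneg _) (a := (p, k)) (by rw [Set.Finite.mem_toFinset]; exact hr)
      nlinarith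
    · have h4 := h p k hP
      have h5 : (1 : ℤ) ≤ |B.eval (((p : ℕ) : ℤ) ^ (k + 1))| := Int.one_le_abs hr
      have h6 : |atq N p k| ≤ |atq M p k| := by
        rw [← h4, abs_mul]
        have := abs_nonneg (atq N p k)
        nlinarith
      have h7 : |(atq N p k : ℝ)| ≤ |(atq M p k : ℝ)| := by exact_mod_cast h6
      have h8 := hC p k
      nlinarith
  · rw [h' p k hP]
    simp only [Int.cast_zero, abs_zero]
    positivity

theorem from_all {P : ℕ} (h : ∀ (n r : ℕ) (f : Fin r → MvPolynomial (Fin n) ℤ),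
      Continues P (fun K _ => (FZ.points f K : ℤ)))
    (N : (K : Type) → [Field K] → ℤ) (hN : FromPoints P N) : Continues P N := by
  classical
  obtain ⟨B, m, A, n, r, f, hB, hrel⟩ := hN
  let M : (K : Type) → [Field K] → ℤ := fun K _ =>
    ∑ i, (A i).eval (Nat.card K : ℤ) * (points (f i) K : ℤ)
  have hM : Continues P M :=
    Continues.sum Finset.univ fun i _ => (h _ _ (f i)).poly_mul (A i)
  have hMg : Growth M := Growth.sum Finset.univ fun i _ => (Growth.points (f i)).poly (A i)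
  let N' : (K : Type) → [Field K] → ℤ := fun K _ => if P < ringChar K then N K else 0
  have hch : ∀ (p : Nat.Primes) (k : ℕ), haveI : Fact (p : ℕ).Prime := ⟨p.2⟩
      ringChar (GaloisField (p : ℕ) (k + 1)) = (p : ℕ) := by
    intro p k
    haveI : Fact (p : ℕ).Prime := ⟨p.2⟩
    exact ringChar.eq (GaloisField (p : ℕ) (k + 1)) (p : ℕ)
  have hg : Growth N' := by
    refine Growth.div (P := P) hMg B hB.ne_zero (fun p k hP => ?_) (fun p k hP => ?_)
    · haveI : Fact (p : ℕ).Prime := ⟨p.2⟩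
      have hP' : P < ringChar (GaloisField (p : ℕ) (k + 1)) := by rw [hch p k]; exact hP
      have h1 := hrel (GaloisField (p : ℕ) (k + 1)) hP'
      rw [card_gf p k] at h1
      have e1 : atq N' p k = N (GaloisField (p : ℕ) (k + 1)) := by
        show (if P < ringChar (GaloisField (p : ℕ) (k + 1)) then
          N (GaloisField (p : ℕ) (k + 1)) else 0) = _
        rw [if_pos hP']
      have e2 : atq M p k = ∑ i, (A i).eval ((((p : ℕ) ^ (k + 1) : ℕ)) : ℤ) *
          (points (f i) (GaloisField (p : ℕ) (k + 1)) : ℤ) := by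
        show ∑ i, (A i).eval (Nat.card (GaloisField (p : ℕ) (k + 1)) : ℤ) *
          (points (f i) (GaloisField (p : ℕ) (k + 1)) : ℤ) = _
        rw [card_gf p k]
      rw [e1, e2, ← h1]
      push_cast
      rfl
    · haveI : Fact (p : ℕ).Prime := ⟨p.2⟩
      show (if P < ringChar (GaloisField (p : ℕ) (k + 1)) then
          N (GaloisField (p : ℕ) (k + 1)) else 0) = 0
      rw [if_neg]
      rw [hch p k]
      exact hP
  have h2 : Continues P N' := by
    refine continues_of_monic hg B hB (continues_congr hM fun K _ _ hP => ?_)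
    show M K = B.eval (Nat.card K : ℤ) * (if P < ringChar K then N K else 0)
    rw [if_pos hP, hrel K hP]
  refine continues_congr h2 fun K _ _ hP => ?_
  show (if P < ringChar K then N K else 0) = N K
  rw [if_pos hP]

theorem fromPoints_points (P : ℕ) {n r : ℕ} (f : Fin r → MvPolynomial (Fin n) ℤ) :
    FromPoints P (fun K _ => (points f K : ℤ)) := by
  refine ⟨1, 1, fun _ => 1, fun _ => n, fun _ => r, fun _ => f, Polynomial.monic_one,
    fun K _ _ _ => ?_⟩
  simp

end Pool.Agent.E8helper17.FZ
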