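import Pool.Agent.E8helper17.FZ.Pol

set_option autoImplicit false

namespace Pool.Agent.E8helper17.FZ

open Finset MvPolynomial

/-- the hypothesis -/
def HP (d P : ℕ) : Prop := ∀ (n a : ℕ) (ε : Fin a → ℤˣ) (L : Fin a → Fin n → ℤ),
  Continues P (fun K _ => (points (fun _ : Fin 1 => powerForm d ε L) K : ℤ))

theorem aeval_powerForm {d n a : ℕ} (ε : Fin a → ℤˣ) (L : Fin a → Fin n → ℤ) {K : Type} [Field K]
    (x : Fin n → K) : aeval x (powerForm d ε L) = ∑ j, (((ε j : ℤˣ) : ℤ) : K) * (lin (L j) x) ^ d := by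
  unfold powerForm lin
  rw [map_sum]
  refine sum_congr rfl fun j _ => ?_
  rw [map_mul, map_pow, map_sum, aeval_C]
  simp [aeval_C]

theorem HP.gen {d P : ℕ} (h : HP d P) {ρ J : Type} [Fintype ρ] [Fintype J] (ε : J → ℤˣ)
    (L : J → ρ → ℤ) : Continues P (fun K _ =>
      (Nat.card {v : ρ → K // ∑ j, (((ε j : ℤˣ) : ℤ) : K) * (lin (L j) v) ^ d = 0} : ℤ)) := by
  classical
  let e := Fintype.equivFin ρ
  let e' := Fintype.equivFin J
  refine continues_congr (h (Fintype.card ρ) (Fintype.card J) (fun j => ε (e'.symm j))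
    (fun j i => L (e'.symm j) (e.symm i))) fun K _ _ _ => ?_
  congr 1
  unfold points
  refine Nat.card_congr ((Equiv.arrowCongr e.symm (Equiv.refl K)).subtypeEquiv fun x => ?_)
  rw [forall_const, aeval_powerForm]
  rw [← Equiv.sum_comp e' ]
  have h1 : ∀ j : J, lin (fun i => L j (e.symm i)) x =
      lin (L j) ((Equiv.arrowCongr e.symm (Equiv.refl K)) x) := by
    intro j
    unfold lin
    rw [← Equiv.sum_comp e]
    simp
  simp only [Equiv.symm_apply_apply, h1]

/-- powers of `q` -/
theorem HP.pow {d P : ℕ} (h : HP d P) (m : ℕ) : Continues P (fun K _ => (Nat.card K : ℤ) ^ m) := by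
  refine continues_congr (h.gen (ρ := Fin m) (J := Empty) Empty.elim Empty.elim) fun K _ _ _ => ?_
  have : Nat.card {v : Fin m → K // ∑ j : Empty, ((((Empty.elim j : ℤˣ)) : ℤ) : K) *
      (lin (Empty.elim j) v) ^ d = 0} = Nat.card K ^ m := by
    rw [Nat.card_congr (Equiv.subtypeUnivEquiv fun v => by simp), Nat.card_fun]
    simp
  rw [this]
  push_cast
  rfl

/-- products of `d` linear forms -/
theorem HP.prod {d P : ℕ} (h : HP d P) (hd : d ≤ P) {ρ J : Type} [Fintype ρ] [Fintype J]
    (Λ : J → Fin d → ρ → ℤ) : Continues P (fun K _ =>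
      (Nat.card {v : ρ → K // ∑ j, ∏ i, lin (Λ j i) v = 0} : ℤ)) := by
  classical
  refine continues_congr (h.gen (ρ := ρ) (J := J × Finset (Fin d))
    (fun x => (-1) ^ (d + x.2.card)) (fun x => ∑ i ∈ x.2, Λ x.1 i)) fun K _ _ hP => ?_
  congr 1
  refine Nat.card_congr (Equiv.subtypeEquivRight fun v => ?_)
  have h1 : ∀ (j : J) (S : Finset (Fin d)), lin (∑ i ∈ S, Λ j i) v = ∑ i ∈ S, lin (Λ j i) v := by
    intro j S
    unfold lin
    rw [sum_comm]
    refine sum_congr rfl fun a _ => ?_
    rw [Finset.sum_apply, Int.cast_sum, sum_mul]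
  have h2 : ∑ x : J × Finset (Fin d), ((((-1 : ℤˣ) ^ (d + x.2.card) : ℤˣ) : ℤ) : K) *
      (lin (∑ i ∈ x.2, Λ x.1 i) v) ^ d = (d.factorial : K) * ∑ j, ∏ i, lin (Λ j i) v := by
    rw [Fintype.sum_prod_type, mul_sum]
    refine sum_congr rfl fun j _ => ?_
    rw [← polar]
    refine sum_congr rfl fun S _ => ?_
    rw [h1]
    push_cast
    rfl
  rw [h2, mul_eq_zero]
  simp only [factorial_ne hd hP, false_or]

/-- cubic forms -/
theorem HP.cub {d P : ℕ} (h : HP d P) (hd3 : 3 ≤ d) (hd : d ≤ P) {ρ J : Type} [Fintype ρ] [Fintype J]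
    (α β γ : J → ρ → ℤ) : Continues P (fun K _ =>
      (Nat.card {v : ρ → K // ∑ j, lin (α j) v * lin (β j) v * lin (γ j) v = 0} : ℤ)) := by
  classical
  obtain ⟨e, rfl⟩ := Nat.exists_eq_add_of_le' hd3
  rcases Nat.eq_zero_or_pos e with rfl | he
  · refine continues_congr (h.prod hd (fun j => ![α j, β j, γ j])) fun K _ _ _ => ?_
    congr 1
    refine Nat.card_congr (Equiv.subtypeEquivRight fun v => ?_)
    have : ∀ j, ∏ i : Fin (0 + 3), lin ((![α j, β j, γ j] : Fin (0 + 3) → ρ → ℤ) i) v =
        lin (α j) v * lin (β j) v * lin (γ j) v := by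
      intro j
      exact Fin.prod_univ_three _
    simp only [this]
  · -- `t ^ e * form`
    let Λ : J → Fin (e + 3) → Option ρ → ℤ := fun j => Fin.append (fun _ : Fin e => Pi.single none 1)
      (![fun o => o.elim 0 (α j), fun o => o.elim 0 (β j), fun o => o.elim 0 (γ j)] : Fin 3 → Option ρ → ℤ)
    have hl : ∀ (K : Type) [Field K] (g : ρ → ℤ) (t : K) (v : ρ → K),
        lin (fun o : Option ρ => o.elim 0 g) (fun o : Option ρ => o.elim t v) = lin g v := by
      intro K _ g t v
      unfold lin
      rw [Fintype.sum_option]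
      simp
    have ht : ∀ (K : Type) [Field K] (t : K) (v : ρ → K),
        lin (Pi.single none 1 : Option ρ → ℤ) (fun o : Option ρ => o.elim t v) = t := by
      intro K _ t v
      unfold lin
      rw [Fintype.sum_option]
      simp
    have hprod : ∀ (K : Type) [Field K] (t : K) (v : ρ → K) (j : J),
        ∏ i, lin (Λ j i) (fun o : Option ρ => o.elim t v) =
          t ^ e * (lin (α j) v * lin (β j) v * lin (γ j) v) := by
      intro K _ t v j
      rw [Fin.prod_univ_add]
      congr 1
      · simp only [Λ, Fin.append_left, ht]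
        simp
      · simp only [Λ, Fin.append_right]
        rw [Fin.prod_univ_three]
        simp only [Matrix.cons_val_zero, Matrix.cons_val_one, Matrix.cons_val_two, Matrix.head_cons,
          Matrix.tail_cons, Matrix.cons_val, hl]
    refine continues_of_rel (u := 0) (growth_of_le (n := Fintype.card ρ) ?_)
      (h.pow (Fintype.card ρ)) (h.prod hd Λ) ?_
    · intro K _ _
      rw [abs_of_nonneg (by positivity)]
      have h1 : Nat.card {v : ρ → K // ∑ j, lin (α j) v * lin (β j) v * lin (γ j) v = 0} ≤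
          Nat.card (ρ → K) := Finite.card_subtype_le _
      rw [Nat.card_fun, Nat.card_eq_fintype_card (α := ρ)] at h1
      exact_mod_cast h1
    · intro K _ _
      have h1 := t_count (K := K) (W := ρ → K)
        (fun t v => t ^ e * ∑ j, lin (α j) v * lin (β j) v * lin (γ j) v = 0)
        (Nat.card {v : ρ → K // ∑ j, lin (α j) v * lin (β j) v * lin (γ j) v = 0}) ?_
      · have h2 : Nat.card {v : ρ → K // (0 : K) ^ e * ∑ j, lin (α j) v * lin (β j) v * lin (γ j) v = 0}
            = Nat.card K ^ Fintype.card ρ := by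
          rw [Nat.card_congr (Equiv.subtypeUnivEquiv fun v => by simp [he.ne']), Nat.card_fun,
            Nat.card_eq_fintype_card (α := ρ)]
        rw [h2] at h1
        have h3 : Nat.card {v : Option ρ → K // ∑ j, ∏ i, lin (Λ j i) v = 0} =
            Nat.card {z : K × (ρ → K) // z.1 ^ e * ∑ j, lin (α j) z.2 * lin (β j) z.2 * lin (γ j) z.2 = 0} := by
          refine Nat.card_congr ((Equiv.piOptionEquivProd (β := fun _ : Option ρ => K)).subtypeEquiv
            fun v => ?_)
          have hv : v = (fun o : Option ρ => o.elim (v none) (fun a => v (some a))) := by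
            ext o; cases o <;> rfl
          have : ∑ j, ∏ i, lin (Λ j i) v = (v none) ^ e * ∑ j, lin (α j) (fun a => v (some a)) *
              lin (β j) (fun a => v (some a)) * lin (γ j) (fun a => v (some a)) := by
            rw [mul_sum]
            refine sum_congr rfl fun j _ => ?_
            rw [← hprod, ← hv]
          rw [this]
          rfl
        rw [h3, h1]
        push_cast
        ring
      · intro t ht0
        congr 1
        refine Nat.card_congr (Equiv.subtypeEquivRight fun v => ?_)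
        rw [mul_eq_zero]
        simp [ht0]

end Pool.Agent.E8helper17.FZ
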