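import Pool.Agent.E8helper17.FZ.Chain

set_option autoImplicit false

namespace Pool.Agent.E8helper17.FZ

open Filter Topology Complex

/-- continuation by a recursion `L w = R w * ∏ i, L (w + t i) ^ c i`, `t i ≥ 1` -/
theorem extend_rec' {ι : Type} (S : Finset ι) (t : ι → ℕ) (ht : ∀ i ∈ S, 1 ≤ t i) (c : ι → ℤ)
    (R L : ℂ → ℂ) (σ : ℝ) (hR : MeromorphicOn R Set.univ)
    (hL : ∀ w : ℂ, σ < w.re → AnalyticAt ℂ L w)
    (hrec : ∀ w : ℂ, σ < w.re → L w = R w * ∏ i ∈ S, L (w + t i) ^ c i) :
    ∃ F : ℂ → ℂ, MeromorphicOn F Set.univ ∧ ∀ w : ℂ, σ < w.re → F w = L w := by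
  obtain ⟨G, hG0, hGs⟩ : ∃ G : ℕ → ℂ → ℂ, G 0 = L ∧
      ∀ m w, G (m + 1) w = R w * ∏ i ∈ S, G m (w + t i) ^ c i :=
    ⟨fun m => Nat.rec L (fun _ g w => R w * ∏ i ∈ S, g (w + t i) ^ c i) m, rfl, fun m w => rfl⟩
  have hshift : ∀ (m : ℕ) (w : ℂ) (i : ι), i ∈ S → σ < w.re + ((m + 1 : ℕ) : ℝ) →
      σ < (w + t i).re + m := by
    intro m w i hi h
    have h1 : (1 : ℝ) ≤ t i := by exact_mod_cast ht i hi
    simp only [add_re, natCast_re]
    push_cast at h
    linarith
  have step : ∀ (m : ℕ) (w : ℂ), σ < w.re + m → G (m + 1) w = G m w := by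
    intro m
    induction m with
    | zero =>
      intro w hw
      rw [hGs, hG0, ← hrec w (by simpa using hw)]
    | succ m ih =>
      intro w hw
      rw [hGs, hGs]
      congr 1
      refine Finset.prod_congr rfl fun i hi => ?_
      rw [ih _ (hshift m w i hi hw)]
  have hG : ∀ (m m' : ℕ) (w : ℂ), σ < w.re + m → m ≤ m' → G m' w = G m w := by
    intro m m' w hw hm
    induction m', hm using Nat.le_induction with
    | base => rfl
    | succ k hk ih =>
      rw [step k w (lt_of_lt_of_le hw (by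
        have : (m : ℝ) ≤ k := by exact_mod_cast hk
        linarith)), ih]
  have hmero : ∀ (m : ℕ) (w : ℂ), σ < w.re + m → MeromorphicAt (G m) w := by
    intro m
    induction m with
    | zero => intro w hw; rw [hG0]; exact (hL w (by simpa using hw)).meromorphicAt
    | succ m ih =>
      intro w hw
      have e : G (m + 1) = R * ∏ i ∈ S, (fun z => G m (z + t i)) ^ c i := by
        ext z
        rw [hGs]
        simp
      rw [e]
      refine (hR w (Set.mem_univ _)).mul (MeromorphicAt.prod fun i hi => ?_)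
      exact (mero_shift (ih _ (hshift m w i hi hw))).zpow _
  let M : ℂ → ℕ := fun w => ⌈σ + 1 - w.re⌉₊
  have hM : ∀ w : ℂ, σ < w.re + M w := by
    intro w
    have := Nat.le_ceil (σ + 1 - w.re)
    show σ < w.re + (⌈σ + 1 - w.re⌉₊ : ℝ)
    linarith
  refine ⟨fun w => G (M w) w, ?_, ?_⟩
  · intro w0 _
    have h0 : σ < w0.re + ((M w0 + 1 : ℕ) : ℝ) := by
      have := hM w0
      push_cast
      linarith
    have h1 : MeromorphicAt (G (M w0 + 1)) w0 := hmero _ _ h0
    refine h1.congr ?_
    refine Filter.Eventually.filter_mono nhdsWithin_le_nhds ?_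
    have h5 : ∀ᶠ w : ℂ in 𝓝 w0, w0.re - 1 < w.re :=
      (Complex.continuous_re.tendsto w0).eventually (lt_mem_nhds (by linarith))
    filter_upwards [h5] with w hw
    refine hG _ _ w (hM w) ?_
    show ⌈σ + 1 - w.re⌉₊ ≤ ⌈σ + 1 - w0.re⌉₊ + 1
    rw [Nat.ceil_le]
    have := Nat.le_ceil (σ + 1 - w0.re)
    push_cast
    linarith
  · intro w hw
    show G (M w) w = L w
    rw [hG 0 (M w) w (by simpa using hw) (Nat.zero_le _), hG0]

theorem continues_zero (P : ℕ) : Continues P (fun _ _ => 0) := by
  refine ⟨fun _ => 1, fun w _ => analyticAt_const.meromorphicAt, 0, fun s _ => ?_⟩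
  have e : term P (fun _ _ => 0) s = fun _ => 0 := by
    ext x
    unfold term atq
    split_ifs <;> simp
  rw [e]
  refine ⟨summable_zero, ?_⟩
  unfold Z
  rw [e]
  simp

theorem Continues.int_mul {P : ℕ} {N : (K : Type) → [Field K] → ℤ} (h : Continues P N) (a : ℤ) :
    Continues P (fun K _ => a * N K) := by
  induction a using Int.induction_on with
  | zero =>
    refine continues_congr (continues_zero P) fun K _ _ _ => ?_
    simp
  | succ i ih =>
    refine continues_congr (ih.add h) fun K _ _ _ => ?_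
    ring
  | pred i ih =>
    refine continues_congr (ih.add h.neg) fun K _ _ _ => ?_
    ring

theorem Continues.poly_mul {P : ℕ} {N : (K : Type) → [Field K] → ℤ} (h : Continues P N)
    (A : Polynomial ℤ) : Continues P (fun K _ => A.eval (Nat.card K : ℤ) * N K) := by
  induction A using Polynomial.induction_on' with
  | add p q hp hq =>
    refine continues_congr (hp.add hq) fun K _ _ _ => ?_
    rw [Polynomial.eval_add]
    ring
  | monomial n a =>
    refine continues_congr ((h.shift n).int_mul a) fun K _ _ _ => ?_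
    rw [Polynomial.eval_monomial]
    ring

theorem Continues.sum {P : ℕ} {ι : Type} (S : Finset ι) {N : ι → (K : Type) → [Field K] → ℤ}
    (h : ∀ i ∈ S, Continues P (N i)) : Continues P (fun K _ => ∑ i ∈ S, N i K) := by
  classical
  induction S using Finset.induction_on with
  | empty => simpa using continues_zero P
  | insert a S ha ih =>
    refine continues_congr ((h a (Finset.mem_insert_self a S)).add
      (ih fun i hi => h i (Finset.mem_insert_of_mem hi))) fun K _ _ _ => ?_
    rw [Finset.sum_insert ha]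

/-- **Division by a monic polynomial in `q`.** -/
theorem continues_of_monic {P : ℕ} {N : (K : Type) → [Field K] → ℤ} (hN : Growth N)
    (B : Polynomial ℤ) (hB : B.Monic)
    (h : Continues P (fun K _ => B.eval (Nat.card K : ℤ) * N K)) : Continues P N := by
  obtain ⟨C, n, hC⟩ := hN
  obtain ⟨F1, hF1, σ1, h1⟩ := h
  set e := B.natDegree with he
  set σ : ℝ := max σ1 (n + 1) with hσ
  have hs1 : σ1 ≤ σ := le_max_left _ _
  have hs3 : (n : ℝ) + 1 ≤ σ := le_max_right _ _
  have hterm : ∀ (s : ℂ) (x : Nat.Primes × ℕ),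
      term P (fun K _ => B.eval (Nat.card K : ℤ) * N K) (s + e) x =
      ∑ j ∈ Finset.range (e + 1), (B.coeff j : ℂ) * term P N (s + ((e - j : ℕ) : ℂ)) x := by
    intro s x
    unfold term
    by_cases hP : P < (x.1 : ℕ)
    · simp only [hP, if_true]
      have hp : ((x.1 : ℕ) : ℂ) ≠ 0 := by exact_mod_cast x.1.2.ne_zero
      have e1 : atq (fun K _ => B.eval (Nat.card K : ℤ) * N K) x.1 x.2 =
          B.eval (((x.1 : ℕ) : ℤ) ^ (x.2 + 1)) * atq N x.1 x.2 := by
        unfold atq
        simp only []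
        rw [card_gf x.1 x.2]
        push_cast
        rfl
      rw [e1, Polynomial.eval_eq_sum_range, ← he]
      push_cast
      rw [Finset.sum_mul, Finset.sum_div, Finset.sum_mul]
      refine Finset.sum_congr rfl fun j hj => ?_
      have hj' : j ≤ e := Nat.lt_succ_iff.1 (Finset.mem_range.1 hj)
      have e2 : ((x.1 : ℕ) : ℂ) ^ (-(s + ((e - j : ℕ) : ℂ))) =
          ((x.1 : ℕ) : ℂ) ^ (-(s + e)) * ((x.1 : ℕ) : ℂ) ^ j := by
        rw [← Complex.cpow_natCast _ j, ← Complex.cpow_add _ _ hp]
        congr 1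
        rw [Nat.cast_sub hj']
        ring
      rw [e2, mul_pow, ← pow_mul, ← pow_mul, mul_comm j (x.2 + 1)]
      ring
    · simp only [hP, if_false]
      simp
  have hsum : ∀ (w : ℂ) (j : ℕ), σ < w.re → Summable (term P N (w + (j : ℂ))) := by
    intro w j hw
    refine summable_term hC ?_
    have : (0 : ℝ) ≤ j := Nat.cast_nonneg j
    simp only [add_re, natCast_re]
    linarith
  have hrec : ∀ w : ℂ, σ < w.re → Z P N w = (fun w => F1 (w + e)) w *
      ∏ j ∈ Finset.range e, Z P N (w + ((e - j : ℕ) : ℂ)) ^ (-B.coeff j) := by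
    intro w hw
    have hre : σ1 < (w + (e : ℂ)).re := by
      have : (0 : ℝ) ≤ e := Nat.cast_nonneg e
      simp only [add_re, natCast_re]
      linarith
    obtain ⟨a1, a2⟩ := h1 (w + e) hre
    simp only []
    rw [a2]
    have key : Z P (fun K _ => B.eval (Nat.card K : ℤ) * N K) (w + e) =
        ∏ j ∈ Finset.range (e + 1), Z P N (w + ((e - j : ℕ) : ℂ)) ^ (B.coeff j) := by
      unfold Z
      rw [tsum_congr (hterm w), Summable.tsum_finsetSum (fun j _ => (hsum w _ hw).mul_left _),
        Complex.exp_sum]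
      refine Finset.prod_congr rfl fun j _ => ?_
      rw [tsum_mul_left, Complex.exp_int_mul]
    rw [key, Finset.prod_range_succ, mul_right_comm, ← Finset.prod_mul_distrib]
    have hone : ∀ j ∈ Finset.range e, Z P N (w + ((e - j : ℕ) : ℂ)) ^ (B.coeff j) *
        Z P N (w + ((e - j : ℕ) : ℂ)) ^ (-B.coeff j) = 1 := by
      intro j _
      have : Z P N (w + ((e - j : ℕ) : ℂ)) ≠ 0 := Complex.exp_ne_zero _
      rw [← zpow_add₀ this]
      simp
    rw [Finset.prod_congr rfl hone, Finset.prod_const_one, one_mul]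
    have : B.coeff e = 1 := hB
    rw [this]
    simp
  have hR : MeromorphicOn (fun w => F1 (w + e)) Set.univ := by
    intro w _
    exact mero_shift (hF1 _ (Set.mem_univ _))
  obtain ⟨F, hF, hF'⟩ := extend_rec' (Finset.range e) (fun j => e - j)
    (fun j hj => by have := Finset.mem_range.1 hj; omega) (fun j => -B.coeff j) _ (Z P N) σ hR
    (fun w hw => analytic_Z hC (lt_of_le_of_lt hs3 hw)) hrec
  exact ⟨F, hF, σ, fun s hs => ⟨summable_term hC (by linarith), hF' s hs⟩⟩

end Pool.Agent.E8helper17.FZ
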