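import Pool.Agent.E8helper17.FZ.Circ

set_option autoImplicit false

namespace Pool.Agent.E8helper17.FZ

open Finset

/-! ### polarisation -/

theorem inner_zero {K : Type} [Field K] {d : ℕ} (f : Fin d → Fin d) (a : Fin d)
    (ha : ∀ k, f k ≠ a) :
    ∑ S ∈ (univ : Finset (Finset (Fin d))).filter (fun S => ∀ k, f k ∈ S), (-1 : K) ^ (d + S.card) = 0 := by
  refine Finset.sum_involution (fun S _ => if a ∈ S then S.erase a else insert a S) ?_ ?_ ?_ ?_
  · intro S _
    split_ifs with h
    · have h1 : S.card = (S.erase a).card + 1 := (Finset.card_erase_add_one h).symm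
      rw [h1, ← add_assoc, pow_succ]
      ring
    · rw [Finset.card_insert_of_notMem h, ← add_assoc, pow_succ]
      ring
  · intro S _ _
    split_ifs with h
    · intro he
      rw [← he] at h
      exact absurd h (Finset.notMem_erase a S)
    · intro he
      exact h (he ▸ Finset.mem_insert_self a S)
  · intro S hS
    rw [Finset.mem_filter] at hS ⊢
    refine ⟨Finset.mem_univ _, fun k => ?_⟩
    split_ifs with h
    · exact Finset.mem_erase.2 ⟨ha k, hS.2 k⟩
    · exact Finset.mem_insert_of_mem (hS.2 k)
  · intro S _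
    by_cases h : a ∈ S
    · simp [h, Finset.insert_erase h]
    · simp [h, Finset.erase_insert h]

theorem inner_one {K : Type} [Field K] {d : ℕ} (f : Fin d → Fin d) (hf : Function.Surjective f) :
    ∑ S ∈ (univ : Finset (Finset (Fin d))).filter (fun S => ∀ k, f k ∈ S), (-1 : K) ^ (d + S.card) = 1 := by
  have : (univ : Finset (Finset (Fin d))).filter (fun S => ∀ k, f k ∈ S) = {univ} := by
    ext S
    rw [Finset.mem_filter, Finset.mem_singleton]
    constructor
    · rintro ⟨_, h⟩
      rw [Finset.eq_univ_iff_forall]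
      intro b
      obtain ⟨k, rfl⟩ := hf b
      exact h k
    · rintro rfl
      exact ⟨Finset.mem_univ _, fun k => Finset.mem_univ _⟩
  rw [this, Finset.sum_singleton, Finset.card_univ, Fintype.card_fin, ← two_mul, pow_mul]
  simp

theorem polar {K : Type} [Field K] (d : ℕ) (x : Fin d → K) :
    ∑ S : Finset (Fin d), (-1 : K) ^ (d + S.card) * (∑ i ∈ S, x i) ^ d =
      (d.factorial : K) * ∏ i, x i := by
  classical
  have h1 : ∀ S : Finset (Fin d), (∑ i ∈ S, x i) ^ d =
      ∑ f : Fin d → Fin d, if (∀ k, f k ∈ S) then ∏ k, x (f k) else 0 := by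
    intro S
    have e1 : (∑ i ∈ S, x i) ^ d = ∏ _k : Fin d, ∑ i ∈ S, x i := by simp
    rw [e1, Finset.prod_univ_sum, ← Finset.sum_filter]
    refine Finset.sum_congr ?_ fun _ _ => rfl
    ext f
    rw [Fintype.mem_piFinset, Finset.mem_filter]
    simp
  have h2 : ∑ S : Finset (Fin d), (-1 : K) ^ (d + S.card) * (∑ i ∈ S, x i) ^ d =
      ∑ f : Fin d → Fin d, (∏ k, x (f k)) *
        ∑ S ∈ (univ : Finset (Finset (Fin d))).filter (fun S => ∀ k, f k ∈ S), (-1 : K) ^ (d + S.card) := by
    simp_rw [h1, mul_sum, Finset.sum_filter]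
    rw [Finset.sum_comm]
    refine Finset.sum_congr rfl fun f _ => Finset.sum_congr rfl fun S _ => ?_
    split_ifs <;> ring
  rw [h2]
  have h3 : ∀ f : Fin d → Fin d, (∏ k, x (f k)) *
        ∑ S ∈ (univ : Finset (Finset (Fin d))).filter (fun S => ∀ k, f k ∈ S), (-1 : K) ^ (d + S.card) =
      if Function.Bijective f then ∏ i, x i else 0 := by
    intro f
    split_ifs with hf
    · rw [inner_one f hf.2, mul_one]
      exact hf.prod_comp x
    · have : ¬ Function.Surjective f := fun h => hf (Finite.surjective_iff_bijective.1 h)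
      unfold Function.Surjective at this
      push Not at this
      obtain ⟨a, ha⟩ := this
      rw [inner_zero f a ha, mul_zero]
  rw [Finset.sum_congr rfl fun f _ => h3 f, ← Finset.sum_filter, Finset.sum_const, nsmul_eq_mul]
  congr 1
  have h4 : ((univ : Finset (Fin d → Fin d)).filter Function.Bijective).card = d.factorial := by
    rw [← Fintype.card_subtype]
    have e := Fintype.card_perm (α := Fin d)
    rw [Fintype.card_fin] at e
    rw [← e]
    exact Fintype.card_congr
      { toFun := fun f => Equiv.ofBijective f.1 f.2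
        invFun := fun e => ⟨e, e.bijective⟩
        left_inv := fun f => by ext; rfl
        right_inv := fun e => by ext; rfl }
  rw [h4]

theorem factorial_ne {K : Type} [Field K] [Finite K] {d P : ℕ} (hd : d ≤ P) (hP : P < ringChar K) :
    (d.factorial : K) ≠ 0 := by
  intro h
  have h1 : ringChar K ∣ d.factorial := (ringChar.spec K d.factorial).1 h
  have hp : (ringChar K).Prime := CharP.char_is_prime K (ringChar K)
  have := (hp.dvd_factorial).1 h1
  omega

end Pool.Agent.E8helper17.FZ
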