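import Pool.Agent.E8helper17.FZ.Defs

set_option autoImplicit false

namespace Pool.Agent.E8helper17.FZ

open Complex Filter Topology

/-- polynomial growth -/
def Growth (N : (K : Type) → [Field K] → ℤ) : Prop :=
  ∃ (C : ℝ) (n : ℕ), ∀ (p : Nat.Primes) (k : ℕ), |(atq N p k : ℝ)| ≤ C * (((p : ℕ) : ℝ) ^ (k + 1)) ^ n

theorem pow_inj' : Function.Injective (fun x : Nat.Primes × ℕ => (x.1 : ℕ) ^ (x.2 + 1)) := by
  intro x y h
  simp only at h
  have hp : (x.1 : ℕ) = y.1 := by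
    have h1 : (x.1 : ℕ) ∣ (y.1 : ℕ) ^ (y.2 + 1) := by
      rw [← h]; exact dvd_pow_self _ (by omega)
    exact (Nat.prime_dvd_prime_iff_eq x.1.2 y.1.2).1 (x.1.2.dvd_of_dvd_pow h1)
  have h2 : x.1 = y.1 := Subtype.ext hp
  have h3 : x.2 = y.2 := by
    rw [hp] at h
    have := Nat.pow_right_injective y.1.2.two_le h
    simpa using this
  exact Prod.ext h2 h3

theorem summable_pp {a : ℝ} (ha : 1 < a) :
    Summable (fun x : Nat.Primes × ℕ => (((x.1 : ℕ) : ℝ) ^ (-a)) ^ (x.2 + 1)) := by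
  have h1 : Summable (fun m : ℕ => (m : ℝ) ^ (-a)) := Real.summable_nat_rpow.2 (by linarith)
  have h2 := h1.comp_injective pow_inj'
  refine h2.congr fun x => ?_
  simp only [Function.comp]
  push_cast
  rw [← Real.rpow_natCast, ← Real.rpow_natCast, ← Real.rpow_mul (by positivity),
    ← Real.rpow_mul (by positivity)]
  ring_nf

theorem norm_cpow_prime (p : Nat.Primes) (s : ℂ) : ‖((p : ℕ) : ℂ) ^ (-s)‖ = ((p : ℕ) : ℝ) ^ (-s.re) := by
  rw [Complex.norm_natCast_cpow_of_pos p.2.pos]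
  simp

theorem term_bound {P : ℕ} {N : (K : Type) → [Field K] → ℤ} {C : ℝ} {n : ℕ}
    (h : ∀ (p : Nat.Primes) (k : ℕ), |(atq N p k : ℝ)| ≤ C * (((p : ℕ) : ℝ) ^ (k + 1)) ^ n)
    {σ : ℝ} {s : ℂ} (hs : σ ≤ s.re) (x : Nat.Primes × ℕ) :
    ‖term P N s x‖ ≤ C * (((x.1 : ℕ) : ℝ) ^ (-(σ - n))) ^ (x.2 + 1) := by
  have hp0 : (0 : ℝ) < (x.1 : ℕ) := by exact_mod_cast x.1.2.pos
  have hp1 : (1 : ℝ) ≤ (x.1 : ℕ) := by exact_mod_cast x.1.2.one_lt.le
  have hC : 0 ≤ C := by
    have := (abs_nonneg _).trans (h x.1 x.2)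
    exact nonneg_of_mul_nonneg_left this (by positivity)
  unfold term
  split_ifs with hP
  · rw [norm_mul, norm_div, norm_pow, norm_cpow_prime]
    have e1 : ‖((atq N x.1 x.2 : ℤ) : ℂ)‖ = |(atq N x.1 x.2 : ℝ)| := by
      rw [Complex.norm_intCast]
    have e2 : (1 : ℝ) ≤ ‖((x.2 : ℂ) + 1)‖ := by
      have : ((x.2 : ℂ) + 1) = ((x.2 + 1 : ℕ) : ℂ) := by push_cast; ring
      rw [this, Complex.norm_natCast]
      push_cast
      have : (0 : ℝ) ≤ x.2 := Nat.cast_nonneg _
      linarith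
    rw [e1]
    have e3 : |(atq N x.1 x.2 : ℝ)| / ‖((x.2 : ℂ) + 1)‖ ≤ C * (((x.1 : ℕ) : ℝ) ^ (x.2 + 1)) ^ n :=
      (div_le_self (abs_nonneg _) e2).trans (h x.1 x.2)
    have e4 : (((x.1 : ℕ) : ℝ) ^ (-s.re)) ^ (x.2 + 1) ≤ (((x.1 : ℕ) : ℝ) ^ (-σ)) ^ (x.2 + 1) := by
      apply pow_le_pow_left₀ (by positivity)
      exact Real.rpow_le_rpow_of_exponent_le hp1 (by linarith)
    refine (mul_le_mul e3 e4 (by positivity) (by positivity)).trans (le_of_eq ?_)
    rw [mul_assoc]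
    congr 1
    rw [← pow_mul, mul_comm (x.2 + 1) n, pow_mul, ← mul_pow]
    congr 1
    rw [neg_sub, sub_eq_add_neg, Real.rpow_add hp0, Real.rpow_natCast]
  · rw [norm_zero]; positivity

theorem summable_term {P : ℕ} {N : (K : Type) → [Field K] → ℤ} {C : ℝ} {n : ℕ}
    (h : ∀ (p : Nat.Primes) (k : ℕ), |(atq N p k : ℝ)| ≤ C * (((p : ℕ) : ℝ) ^ (k + 1)) ^ n)
    {s : ℂ} (hs : (n : ℝ) + 1 < s.re) : Summable (term P N s) := by
  refine Summable.of_norm_bounded ((summable_pp (a := s.re - n) (by linarith)).mul_left C) fun x => ?_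
  exact term_bound h le_rfl x

theorem differentiableAt_term (P : ℕ) (N : (K : Type) → [Field K] → ℤ) (x : Nat.Primes × ℕ) :
    Differentiable ℂ (fun s => term P N s x) := by
  unfold term
  by_cases hP : P < (x.1 : ℕ)
  · simp only [hP, if_true]
    apply Differentiable.const_mul
    apply Differentiable.pow
    intro s
    have hp : ((x.1 : ℕ) : ℂ) ≠ 0 := by exact_mod_cast x.1.2.ne_zero
    exact (differentiableAt_id.neg).const_cpow (Or.inl hp)
  · simp only [hP, if_false]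
    exact differentiable_const _

theorem analytic_Z {P : ℕ} {N : (K : Type) → [Field K] → ℤ} {C : ℝ} {n : ℕ}
    (h : ∀ (p : Nat.Primes) (k : ℕ), |(atq N p k : ℝ)| ≤ C * (((p : ℕ) : ℝ) ^ (k + 1)) ^ n)
    {s : ℂ} (hs : (n : ℝ) + 1 < s.re) : AnalyticAt ℂ (Z P N) s := by
  obtain ⟨σ, h1, h2⟩ := exists_between hs
  have ho : IsOpen {w : ℂ | σ < w.re} := isOpen_lt continuous_const Complex.continuous_re
  have hd : DifferentiableOn ℂ (fun w => ∑' x : Nat.Primes × ℕ, term P N w x) {w : ℂ | σ < w.re} := by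
    refine differentiableOn_tsum_of_summable_norm
      ((summable_pp (a := σ - n) (by linarith)).mul_left C)
      (fun x => (differentiableAt_term P N x).differentiableOn) ho fun x w hw => ?_
    exact term_bound h (le_of_lt hw) x
  have hd2 : DifferentiableOn ℂ (Z P N) {w : ℂ | σ < w.re} := hd.cexp
  exact hd2.analyticAt (ho.mem_nhds h2)

theorem mero_shift {R : ℂ → ℂ} {a w : ℂ} (h : MeromorphicAt R (w + a)) :
    MeromorphicAt (fun z => R (z + a)) w := by
  have h3 : AnalyticAt ℂ (fun z : ℂ => z + a) w := by fun_prop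
  exact MeromorphicAt.comp_analyticAt (f := R) (g := fun z : ℂ => z + a) (x := w) h h3

theorem ana_shift {R : ℂ → ℂ} {a w : ℂ} (h : AnalyticAt ℂ R (w + a)) :
    AnalyticAt ℂ (fun z => R (z + a)) w := by
  have h3 : AnalyticAt ℂ (fun z : ℂ => z + a) w := by fun_prop
  exact AnalyticAt.comp (g := R) (f := fun z : ℂ => z + a) (x := w) h h3

/-- continuation by a recursion `L w = R w * L (w + 1)` -/
theorem extend_rec (R L : ℂ → ℂ) (σ : ℝ) (hR : MeromorphicOn R Set.univ)
    (hL : ∀ w : ℂ, σ < w.re → AnalyticAt ℂ L w)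
    (hrec : ∀ w : ℂ, σ < w.re → L w = R w * L (w + 1)) :
    ∃ F : ℂ → ℂ, MeromorphicOn F Set.univ ∧ ∀ w : ℂ, σ < w.re → F w = L w := by
  have hit : ∀ (m : ℕ) (w : ℂ), σ < w.re →
      L w = (∏ j ∈ Finset.range m, R (w + j)) * L (w + m) := by
    intro m
    induction m with
    | zero => intro w _; simp
    | succ m ih =>
      intro w hw
      rw [ih w hw, Finset.prod_range_succ, hrec (w + m) (by
        simp only [add_re, natCast_re]; have : (0 : ℝ) ≤ m := Nat.cast_nonneg m; linarith)]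
      push_cast
      ring_nf
  let G : ℕ → ℂ → ℂ := fun m w => (∏ j ∈ Finset.range m, R (w + j)) * L (w + m)
  have hG : ∀ (m m' : ℕ) (w : ℂ), σ < w.re + m → m ≤ m' → G m' w = G m w := by
    intro m m' w hw hm
    obtain ⟨t, rfl⟩ := Nat.exists_eq_add_of_le hm
    have h1 := hit t (w + m) (by simp only [add_re, natCast_re]; exact hw)
    show (∏ j ∈ Finset.range (m + t), R (w + j)) * L (w + ((m + t : ℕ) : ℂ)) =
      (∏ j ∈ Finset.range m, R (w + j)) * L (w + m)
    rw [h1, Finset.prod_range_add, mul_assoc]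
    congr 1
    push_cast
    simp only [add_assoc]
  let M : ℂ → ℕ := fun w => ⌈σ + 1 - w.re⌉₊
  have hM : ∀ w : ℂ, σ < w.re + M w := by
    intro w
    have := Nat.le_ceil (σ + 1 - w.re)
    show σ < w.re + (⌈σ + 1 - w.re⌉₊ : ℝ)
    linarith
  refine ⟨fun w => G (M w) w, ?_, ?_⟩
  · intro w0 _
    have h1 : MeromorphicAt (G (M w0 + 1)) w0 := by
      show MeromorphicAt (fun w => (∏ j ∈ Finset.range (M w0 + 1), R (w + j)) *
        L (w + ((M w0 + 1 : ℕ) : ℂ))) w0
      apply MeromorphicAt.mul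
      · have : (fun w => ∏ j ∈ Finset.range (M w0 + 1), R (w + j)) =
            ∏ j ∈ Finset.range (M w0 + 1), fun w => R (w + j) := by
          ext w; simp
        rw [this]
        apply MeromorphicAt.prod
        intro j _
        exact mero_shift (hR _ (Set.mem_univ _))
      · have h4 : AnalyticAt ℂ L (w0 + ((M w0 + 1 : ℕ) : ℂ)) := by
          apply hL
          simp only [add_re, natCast_re]
          have := hM w0
          push_cast
          linarith
        exact (ana_shift h4).meromorphicAt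
    refine h1.congr ?_
    refine Filter.Eventually.filter_mono nhdsWithin_le_nhds ?_
    have h5 : ∀ᶠ w : ℂ in 𝓝 w0, w0.re - 1 < w.re :=
      (Complex.continuous_re.tendsto w0).eventually (lt_mem_nhds (by linarith))
    filter_upwards [h5] with w hw
    refine hG _ _ w (hM w) ?_
    show ⌈σ + 1 - w.re⌉₊ ≤ ⌈σ + 1 - w0.re⌉₊ + 1
    rw [Nat.ceil_le]
    have := Nat.le_ceil (σ + 1 - w0.re)
    push_cast
    linarith
  · intro w hw
    show G (M w) w = L w
    rw [hG 0 (M w) w (by simpa using hw) (Nat.zero_le _)]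
    simp [G]

/-- **The recursion lemma.** -/
theorem continues_of_rec {P u : ℕ} {N N' A : (K : Type) → [Field K] → ℤ}
    (hN : Growth N) (hA : Continues P A) (hN' : Continues P N')
    (hrel : ∀ (p : Nat.Primes) (k : ℕ), P < (p : ℕ) → atq N' p k = atq A p k +
      ((((p : ℕ) : ℤ) ^ (k + 1)) ^ (u + 1) - (((p : ℕ) : ℤ) ^ (k + 1)) ^ u) * atq N p k) :
    Continues P N := by
  obtain ⟨C, n, hC⟩ := hN
  obtain ⟨F1, hF1, σ1, h1⟩ := hA
  obtain ⟨F2, hF2, σ2, h2⟩ := hN'
  set σ : ℝ := max (max σ1 σ2) (n + 1) with hσ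
  have hs1 : σ1 ≤ σ := (le_max_left _ _).trans (le_max_left _ _)
  have hs2 : σ2 ≤ σ := (le_max_right _ _).trans (le_max_left _ _)
  have hs3 : (n : ℝ) + 1 ≤ σ := le_max_right _ _
  have hterm : ∀ (s : ℂ) (x : Nat.Primes × ℕ), term P N' (s + (u + 1)) x =
      term P A (s + (u + 1)) x + (term P N s x - term P N (s + 1) x) := by
    intro s x
    unfold term
    by_cases hP : P < (x.1 : ℕ)
    · simp only [hP, if_true]
      rw [hrel x.1 x.2 hP]
      have hp : ((x.1 : ℕ) : ℂ) ≠ 0 := by exact_mod_cast x.1.2.ne_zero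
      have e1 : ((x.1 : ℕ) : ℂ) ^ (-(s + (u + 1))) = ((x.1 : ℕ) : ℂ) ^ (-s) *
          (((x.1 : ℕ) : ℂ) ^ (u + 1))⁻¹ := by
        rw [neg_add, Complex.cpow_add _ _ hp, Complex.cpow_neg _ ((u : ℂ) + 1)]
        congr 2
        have : ((u : ℂ) + 1) = ((u + 1 : ℕ) : ℂ) := by push_cast; ring
        rw [this, Complex.cpow_natCast]
      have e2 : ((x.1 : ℕ) : ℂ) ^ (-(s + 1)) = ((x.1 : ℕ) : ℂ) ^ (-s) * (((x.1 : ℕ) : ℂ))⁻¹ := by
        rw [neg_add, Complex.cpow_add _ _ hp, Complex.cpow_neg _ (1 : ℂ), Complex.cpow_one]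
      rw [e1, e2]
      push_cast
      have hk : ((x.2 : ℂ) + 1) ≠ 0 := by
        have : ((x.2 : ℂ) + 1) = ((x.2 + 1 : ℕ) : ℂ) := by push_cast; ring
        rw [this]; exact_mod_cast Nat.succ_ne_zero x.2
      set y : ℂ := ((x.1 : ℕ) : ℂ) ^ (-s)
      set a : ℂ := ((x.1 : ℕ) : ℂ)
      rw [mul_pow, mul_pow, inv_pow, inv_pow]
      have e3 : (a ^ (u + 1)) ^ (x.2 + 1) = (a ^ (x.2 + 1)) ^ (u + 1) := by
        rw [← pow_mul, ← pow_mul, mul_comm]
      rw [e3]
      have ha : a ^ (x.2 + 1) ≠ 0 := pow_ne_zero _ hp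
      set b : ℂ := a ^ (x.2 + 1)
      have hb2 : b ^ (u + 1) = b ^ u * b := pow_succ _ _
      have hbu : b ^ u ≠ 0 := pow_ne_zero _ ha
      rw [hb2]
      field_simp
    · simp only [hP, if_false]; ring
  have hrec : ∀ w : ℂ, σ < w.re → Z P N w =
      (fun w => F2 (w + (u + 1)) / F1 (w + (u + 1))) w * Z P N (w + 1) := by
    intro w hw
    have hu : (0 : ℝ) ≤ u := Nat.cast_nonneg u
    have hre : (w + ((u : ℂ) + 1)).re = w.re + (u + 1) := by simp
    have hre1 : (w + 1).re = w.re + 1 := by simp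
    obtain ⟨a1, a2⟩ := h1 (w + (u + 1)) (by rw [hre]; linarith)
    obtain ⟨b1, b2⟩ := h2 (w + (u + 1)) (by rw [hre]; linarith)
    have c1 : Summable (term P N w) := summable_term hC (by linarith)
    have c2 : Summable (term P N (w + 1)) := summable_term hC (by rw [hre1]; linarith)
    have key : ∑' x, term P N' (w + (u + 1)) x = ∑' x, term P A (w + (u + 1)) x +
        (∑' x, term P N w x - ∑' x, term P N (w + 1) x) := by
      rw [← c1.tsum_sub c2, ← a1.tsum_add (c1.sub c2)]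
      exact tsum_congr fun x => hterm w x
    simp only []
    rw [a2, b2]
    unfold Z
    rw [key, Complex.exp_add, Complex.exp_sub]
    have n1 := Complex.exp_ne_zero (∑' x, term P A (w + (u + 1)) x)
    have n2 := Complex.exp_ne_zero (∑' x, term P N (w + 1) x)
    field_simp
  have hR : MeromorphicOn (fun w => F2 (w + (u + 1)) / F1 (w + (u + 1))) Set.univ := by
    intro w _
    have g2 : MeromorphicAt F2 (w + ((u : ℂ) + 1)) := hF2 _ (Set.mem_univ _)
    have g1 : MeromorphicAt F1 (w + ((u : ℂ) + 1)) := hF1 _ (Set.mem_univ _)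
    exact (mero_shift g2).div (mero_shift g1)
  obtain ⟨F, hF, hF'⟩ := extend_rec _ (Z P N) σ hR
    (fun w hw => analytic_Z hC (lt_of_le_of_lt hs3 hw)) hrec
  exact ⟨F, hF, σ, fun s hs => ⟨summable_term hC (by linarith), hF' s hs⟩⟩

/-- sums, differences -/
theorem Continues.add {P : ℕ} {N N' : (K : Type) → [Field K] → ℤ}
    (h : Continues P N) (h' : Continues P N') : Continues P (fun K _ => N K + N' K) := by
  obtain ⟨F1, hF1, σ1, h1⟩ := h
  obtain ⟨F2, hF2, σ2, h2⟩ := h'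
  refine ⟨F1 * F2, fun w hw => (hF1 w hw).mul (hF2 w hw), max σ1 σ2, fun s hs => ?_⟩
  obtain ⟨a1, a2⟩ := h1 s ((le_max_left _ _).trans_lt hs)
  obtain ⟨b1, b2⟩ := h2 s ((le_max_right _ _).trans_lt hs)
  have e : ∀ x, term P (fun K _ => N K + N' K) s x = term P N s x + term P N' s x := by
    intro x
    unfold term atq
    split_ifs
    · push_cast; ring
    · simp
  refine ⟨(a1.add b1).congr fun x => (e x).symm, ?_⟩
  show F1 s * F2 s = _
  rw [a2, b2]
  unfold Z
  rw [← Complex.exp_add, ← a1.tsum_add b1]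
  congr 1
  exact tsum_congr fun x => (e x).symm

theorem Continues.neg {P : ℕ} {N : (K : Type) → [Field K] → ℤ}
    (h : Continues P N) : Continues P (fun K _ => - N K) := by
  obtain ⟨F1, hF1, σ1, h1⟩ := h
  refine ⟨F1⁻¹, fun w hw => (hF1 w hw).inv, σ1, fun s hs => ?_⟩
  obtain ⟨a1, a2⟩ := h1 s hs
  have e : ∀ x, term P (fun K _ => - N K) s x = - term P N s x := by
    intro x
    unfold term atq
    split_ifs
    · push_cast; ring
    · simp
  refine ⟨a1.neg.congr fun x => (e x).symm, ?_⟩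
  show (F1 s)⁻¹ = _
  rw [a2]
  unfold Z
  rw [← Complex.exp_neg, ← tsum_neg]
  congr 1
  exact tsum_congr fun x => (e x).symm

theorem Continues.congr {P : ℕ} {N N' : (K : Type) → [Field K] → ℤ}
    (h : Continues P N) (he : ∀ (p : Nat.Primes) (k : ℕ), P < (p : ℕ) → atq N p k = atq N' p k) :
    Continues P N' := by
  obtain ⟨F1, hF1, σ1, h1⟩ := h
  refine ⟨F1, hF1, σ1, fun s hs => ?_⟩
  obtain ⟨a1, a2⟩ := h1 s hs
  have e : term P N s = term P N' s := by
    ext x
    unfold term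
    split_ifs with hP
    · rw [he x.1 x.2 hP]
    · rfl
  rw [← e]
  refine ⟨a1, ?_⟩
  rw [a2]
  unfold Z
  rw [e]

end Pool.Agent.E8helper17.FZ
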