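import Pool.Agent.E8helper17.FZ.Gen

set_option autoImplicit false

namespace Pool.Agent.E8helper17.FZ

open Finset MvPolynomial

theorem growth_card {V : Type} [Fintype V] (p : (K : Type) → [Field K] → (V → K) → Prop) :
    Growth (fun K _ => (Nat.card {x : V → K // p K x} : ℤ)) := by
  refine growth_of_le (n := Fintype.card V) fun K _ _ => ?_
  rw [abs_of_nonneg (by positivity)]
  have h1 : Nat.card {x : V → K // p K x} ≤ Nat.card (V → K) := Finite.card_subtype_le _
  rw [Nat.card_fun, Nat.card_eq_fintype_card (α := V)] at h1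
  exact_mod_cast h1

/-- unused variables -/
theorem card_pullback {V V' : Type} [Fintype V] [Fintype V'] (i : V → V')
    (hi : Function.Injective i) : ∃ m : ℕ, ∀ (K : Type) [Field K] [Finite K] (p : (V → K) → Prop),
      Nat.card {u : V' → K // p (u ∘ i)} = Nat.card K ^ m * Nat.card {x : V → K // p x} := by
  classical
  refine ⟨Nat.card ((Set.range i)ᶜ : Set V'), fun K _ _ p => ?_⟩
  let e : V ⊕ ((Set.range i)ᶜ : Set V') ≃ V' :=
    ((Equiv.ofInjective i hi).sumCongr (Equiv.refl _)).trans (Equiv.Set.sumCompl (Set.range i))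
  have he : ∀ v, e (Sum.inl v) = i v := by
    intro v
    simp [e, Equiv.Set.sumCompl_apply_inl]
  let E : (V' → K) ≃ (V → K) × (((Set.range i)ᶜ : Set V') → K) :=
    (Equiv.arrowCongr e.symm (Equiv.refl K)).trans (Equiv.sumArrowEquivProdArrow _ _ K)
  have hE : ∀ u, (E u).1 = u ∘ i := by
    intro u
    ext v
    show u (e (Sum.inl v)) = u (i v)
    rw [he]
  have h1 : Nat.card {u : V' → K // p (u ∘ i)} =
      Nat.card {z : (V → K) × (((Set.range i)ᶜ : Set V') → K) // p z.1} := by
    refine Nat.card_congr (E.subtypeEquiv fun u => ?_)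
    rw [hE]
  have h2 : Nat.card {z : (V → K) × (((Set.range i)ᶜ : Set V') → K) // p z.1} =
      Nat.card ({x : V → K // p x} × (((Set.range i)ᶜ : Set V') → K)) :=
    Nat.card_congr
      { toFun := fun z => (⟨z.1.1, z.2⟩, z.1.2)
        invFun := fun z => ⟨(z.1.1, z.2), z.1.2⟩
        left_inv := fun z => rfl
        right_inv := fun z => rfl }
  rw [h1, h2, Nat.card_prod, Nat.card_fun, mul_comm]

theorem continues_of_pow_mul {P m : ℕ} {N : (K : Type) → [Field K] → ℤ} (hN : Growth N)
    (h : Continues P (fun K _ => (Nat.card K : ℤ) ^ m * N K)) : Continues P N := by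
  refine continues_of_monic hN (Polynomial.X ^ m) (Polynomial.monic_X_pow m)
    (continues_congr h fun K _ _ _ => ?_)
  simp

/-- the hypothesis -/
def HT (d P : ℕ) : Prop := ∀ (n : ℕ) (S : Finset (Fin d → Fin n)),
  Continues P (fun K _ => (points (fun _ : Fin 1 => tensorForm S) K : ℤ))

/-- coloured variables -/
def Col (d P : ℕ) : Prop := ∀ (V : Type) [Fintype V] [DecidableEq V] (χ : V → Fin d)
  (S : Finset (Fin d → V)), (∀ s ∈ S, ∀ k, χ (s k) = k) →
    Continues P (fun K _ => (Nat.card {x : V → K // ∑ s ∈ S, ∏ k, x (s k) = 0} : ℤ))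

theorem aeval_tensorForm {d n : ℕ} (S : Finset (Fin d → Fin n)) {K : Type} [Field K]
    (x : Fin d × Fin n → K) : aeval x (tensorForm S) = ∑ s ∈ S, ∏ k, x (k, s k) := by
  unfold tensorForm
  simp

theorem HT.col {d P : ℕ} (h : HT d P) : Col d P := by
  intro V _ _ χ S hS
  classical
  let e := Fintype.equivFin V
  let i : V → Fin d × Fin (Fintype.card V) := fun v => (χ v, e v)
  have hi : Function.Injective i := fun v w hvw => e.injective (congrArg Prod.snd hvw)
  obtain ⟨m, hm⟩ := card_pullback i hi
  refine continues_of_pow_mul (m := m) (growth_card fun K _ x => ∑ s ∈ S, ∏ k, x (s k) = 0)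
    (continues_congr (h (Fintype.card V) (S.image fun s k => e (s k))) fun K _ _ _ => ?_)
  have h1 := hm K (fun x => ∑ s ∈ S, ∏ k, x (s k) = 0)
  have h2 : points (fun _ : Fin 1 => tensorForm (S.image fun s k => e (s k))) K =
      Nat.card {u : Fin d × Fin (Fintype.card V) → K // ∑ s ∈ S, ∏ k, (u ∘ i) (s k) = 0} := by
    unfold points
    refine Nat.card_congr (Equiv.subtypeEquivRight fun u => ?_)
    rw [forall_const, aeval_tensorForm, Finset.sum_image]
    · have : ∀ s ∈ S, ∏ k, u (k, e (s k)) = ∏ k, (u ∘ i) (s k) := by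
        intro s hs
        refine Finset.prod_congr rfl fun k _ => ?_
        show u (k, e (s k)) = u (χ (s k), e (s k))
        rw [hS s hs k]
      rw [Finset.sum_congr rfl this]
    · intro s _ t _ hst
      ext k
      exact e.injective (congrFun hst k)
  rw [h2, h1]
  push_cast
  rfl

theorem Col.pow {d P : ℕ} (h : Col d P) (m : ℕ) : Continues P (fun K _ => (Nat.card K : ℤ) ^ m) := by
  have h0 := h Empty Empty.elim ∅ (by simp)
  refine continues_congr (h0.shift m) fun K _ _ _ => ?_
  have : Nat.card {x : Empty → K // ∑ s ∈ (∅ : Finset (Fin d → Empty)), ∏ k, x (s k) = 0} = 1 := by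
    rw [Nat.card_congr (Equiv.subtypeUnivEquiv fun v => by simp), Nat.card_fun]
    simp
  rw [this]
  simp

theorem Col.desc {d P : ℕ} (h : Col (d + 1) P) : Col d P := by
  intro V _ _ χ S hS
  classical
  let ψ : (Fin d → V) → (Fin (d + 1) → Option V) := fun s => Fin.cons none (fun k => some (s k))
  have hψ : Function.Injective ψ := by
    intro s t hst
    ext k
    have := congrFun hst k.succ
    simpa [ψ] using this
  have h1 := h (Option V) (fun o => o.elim 0 (fun v => (χ v).succ)) (S.image ψ) (by
    intro s hs k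
    obtain ⟨t, ht, rfl⟩ := Finset.mem_image.1 hs
    refine Fin.cases ?_ (fun k => ?_) k
    · rfl
    · show (χ (t k)).succ = k.succ
      rw [hS t ht k])
  refine continues_of_rel (u := 0) (growth_card fun K _ x => ∑ s ∈ S, ∏ k, x (s k) = 0)
    (h.pow (Fintype.card V)) h1 fun K _ _ => ?_
  have h2 := t_count (K := K) (W := V → K) (fun t x => t * ∑ s ∈ S, ∏ k, x (s k) = 0)
    (Nat.card {x : V → K // ∑ s ∈ S, ∏ k, x (s k) = 0}) ?_
  · have h3 : Nat.card {x : V → K // (0 : K) * ∑ s ∈ S, ∏ k, x (s k) = 0} =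
        Nat.card K ^ Fintype.card V := by
      rw [Nat.card_congr (Equiv.subtypeUnivEquiv fun v => by simp), Nat.card_fun,
        Nat.card_eq_fintype_card (α := V)]
    have h4 : Nat.card {x : Option V → K // ∑ s ∈ S.image ψ, ∏ k, x (s k) = 0} =
        Nat.card {z : K × (V → K) // z.1 * ∑ s ∈ S, ∏ k, z.2 (s k) = 0} := by
      refine Nat.card_congr ((Equiv.piOptionEquivProd (β := fun _ : Option V => K)).subtypeEquiv
        fun x => ?_)
      rw [Finset.sum_image (fun s _ t _ hst => hψ hst)]
      have : ∑ s ∈ S, ∏ k, x (ψ s k) = x none * ∑ s ∈ S, ∏ k, x (some (s k)) := by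
        rw [mul_sum]
        refine Finset.sum_congr rfl fun s _ => ?_
        rw [Fin.prod_univ_succ]
        rfl
      rw [this]
      rfl
    rw [h4, h2, h3]
    push_cast
    ring
  · intro t ht
    congr 1
    refine Nat.card_congr (Equiv.subtypeEquivRight fun v => ?_)
    rw [mul_eq_zero]
    simp [ht]

theorem HT.col3 {d P : ℕ} (hd : 3 ≤ d) (h : HT d P) : Col 3 P := by
  have h1 := h.col
  clear h
  induction d, hd using Nat.le_induction with
  | base => exact h1
  | succ d _ ih => exact ih h1.desc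

end Pool.Agent.E8helper17.FZ
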