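import Pool.Agent.E8helper17.FZ.Gad

set_option autoImplicit false

namespace Pool.Agent.E8helper17.FZ

open Finset MvPolynomial

section
variable {V0 J : Type} [Fintype V0] [Fintype J] [DecidableEq V0] [DecidableEq J]

/-- multiplicities -/
def mul0 (lam : J → Fin 3 → V0 → ℤ) (y : (J × Fin 3) × (V0 × Bool)) : ℕ :=
  if y.2.2 then (lam y.1.1 y.1.2 y.2.1).toNat else (-lam y.1.1 y.1.2 y.2.1).toNat

/-- copies -/
abbrev Cp (lam : J → Fin 3 → V0 → ℤ) : Type := (y : (J × Fin 3) × (V0 × Bool)) × Fin (mul0 lam y)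

/-- all the variables -/
abbrev VV (lam : J → Fin 3 → V0 → ℤ) : Type := (V0 × Bool) ⊕ ((J × Fin 3) ⊕ Cp lam)

noncomputable instance instDecVV (lam : J → Fin 3 → V0 → ℤ) : DecidableEq (VV lam) :=
  Classical.decEq _

/-- sign -/
def sg (K : Type) [Field K] (b : Bool) : K := if b then 1 else -1

/-- the extension of a solution -/
def extv (lam : J → Fin 3 → V0 → ℤ) {K : Type} [Field K] (v : V0 → K) : VV lam → K :=
  Sum.elim (fun r => sg K r.2 * v r.1)
    (Sum.elim (fun a => lin (lam a.1 a.2) v) (fun c => -(sg K c.1.2.2 * v c.1.2.1)))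

/-- the constraints -/
noncomputable def cons1 (lam : J → Fin 3 → V0 → ℤ) (v : V0) : Finset (VV lam) := {Sum.inl (v, true), Sum.inl (v, false)}
noncomputable def cons2 (lam : J → Fin 3 → V0 → ℤ) (c : Cp lam) : Finset (VV lam) :=
  {Sum.inr (Sum.inr c), Sum.inl c.1.2}
noncomputable def cons3 (lam : J → Fin 3 → V0 → ℤ) (a : J × Fin 3) : Finset (VV lam) :=
  insert (Sum.inr (Sum.inl a)) (((univ : Finset (Cp lam)).filter (fun c => c.1.1 = a)).image
    (fun c => Sum.inr (Sum.inr c)))

theorem sum_cons1 (lam : J → Fin 3 → V0 → ℤ) {K : Type} [Field K] (x : VV lam → K) (v : V0) :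
    ∑ i ∈ cons1 lam v, x i = x (Sum.inl (v, true)) + x (Sum.inl (v, false)) := by
  unfold cons1
  rw [Finset.sum_pair (by simp)]

theorem sum_cons2 (lam : J → Fin 3 → V0 → ℤ) {K : Type} [Field K] (x : VV lam → K) (c : Cp lam) :
    ∑ i ∈ cons2 lam c, x i = x (Sum.inr (Sum.inr c)) + x (Sum.inl c.1.2) := by
  unfold cons2
  rw [Finset.sum_pair (by simp)]

theorem sum_cons3 (lam : J → Fin 3 → V0 → ℤ) {K : Type} [Field K] (x : VV lam → K) (a : J × Fin 3) :
    ∑ i ∈ cons3 lam a, x i = x (Sum.inr (Sum.inl a)) +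
      ∑ c : Cp lam, if c.1.1 = a then x (Sum.inr (Sum.inr c)) else 0 := by
  unfold cons3
  rw [Finset.sum_insert (by simp), Finset.sum_image (fun _ _ _ _ h => by simpa using h),
    Finset.sum_filter]

theorem sum_copies (lam : J → Fin 3 → V0 → ℤ) {K : Type} [Field K] (v : V0 → K) (a : J × Fin 3) :
    (∑ c : Cp lam, if c.1.1 = a then -(sg K c.1.2.2 * v c.1.2.1) else 0) = -lin (lam a.1 a.2) v := by
  rw [Fintype.sum_sigma]
  simp only [Finset.sum_const, Finset.card_univ, Fintype.card_fin]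
  rw [Fintype.sum_prod_type]
  simp only [smul_ite, smul_zero, smul_neg]
  rw [Finset.sum_comm]
  simp only [Finset.sum_ite_eq', Finset.mem_univ, if_true]
  rw [Fintype.sum_prod_type]
  unfold lin
  rw [← Finset.sum_neg_distrib]
  refine Finset.sum_congr rfl fun w _ => ?_
  rw [Fintype.sum_bool]
  simp only [mul0, sg, if_true, nsmul_eq_mul, one_mul, neg_mul, mul_neg, neg_neg]
  have h : ((lam a.1 a.2 w : ℤ) : K) = (((lam a.1 a.2 w).toNat : ℕ) : K) -
      (((-lam a.1 a.2 w).toNat : ℕ) : K) := by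
    have := Int.toNat_sub_toNat_neg (lam a.1 a.2 w)
    calc ((lam a.1 a.2 w : ℤ) : K) = ((((lam a.1 a.2 w).toNat : ℤ) - ((-lam a.1 a.2 w).toNat : ℤ) : ℤ) : K) := by
          rw [this]
      _ = _ := by push_cast; rfl
  rw [h]
  simp
  ring

theorem cons_iff (lam : J → Fin 3 → V0 → ℤ) {K : Type} [Field K] (x : VV lam → K) :
    ((∀ v, ∑ i ∈ cons1 lam v, x i = 0) ∧ (∀ c, ∑ i ∈ cons2 lam c, x i = 0) ∧
      (∀ a, ∑ i ∈ cons3 lam a, x i = 0)) ↔ x = extv lam (fun v => x (Sum.inl (v, true))) := by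
  simp only [sum_cons1, sum_cons2, sum_cons3]
  constructor
  · rintro ⟨h1, h2, h3⟩
    have e1 : ∀ r : V0 × Bool, x (Sum.inl r) = sg K r.2 * x (Sum.inl (r.1, true)) := by
      rintro ⟨w, b⟩
      cases b
      · have := h1 w
        simp only [sg]
        simp only [Bool.false_eq_true, if_false]
        linear_combination this
      · simp [sg]
    have e2 : ∀ c : Cp lam, x (Sum.inr (Sum.inr c)) = -(sg K c.1.2.2 * x (Sum.inl (c.1.2.1, true))) := by
      intro c
      rw [← e1 c.1.2]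
      linear_combination h2 c
    ext i
    rcases i with r | a | c
    · exact e1 r
    · have := h3 a
      simp only [e2] at this
      rw [sum_copies lam (fun v => x (Sum.inl (v, true))) a] at this
      show x (Sum.inr (Sum.inl a)) = lin (lam a.1 a.2) (fun v => x (Sum.inl (v, true)))
      linear_combination this
    · exact e2 c
  · intro h
    set v : V0 → K := fun v => x (Sum.inl (v, true)) with hv
    rw [h]
    refine ⟨fun w => ?_, fun c => ?_, fun a => ?_⟩
    · simp [extv, sg]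
    · simp [extv]
    · simp only [extv, Sum.elim_inr, Sum.elim_inl]
      rw [sum_copies]
      ring

/-- the hyperedges -/
noncomputable def SS (lam : J → Fin 3 → V0 → ℤ) : Finset (Fin 3 → VV lam) :=
  (univ : Finset J).image (fun j k => Sum.inr (Sum.inl (j, k)))

theorem sum_SS (lam : J → Fin 3 → V0 → ℤ) {K : Type} [Field K] (x : VV lam → K) :
    ∑ s ∈ SS lam, ∏ k, x (s k) = ∑ j, ∏ k, x (Sum.inr (Sum.inl (j, k))) := by
  unfold SS
  rw [Finset.sum_image]
  intro i _ j _ hij
  have := congrFun hij 0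
  simpa using this

/-- the colours -/
def colr (lam : J → Fin 3 → V0 → ℤ) (χ0 : V0 → Fin 3) : VV lam → Fin 3 :=
  Sum.elim (fun r => χ0 r.1) (Sum.elim (fun a => a.2) (fun c => c.1.1.2))

theorem Col.tri {P : ℕ} (h : Col 3 P) (χ0 : V0 → Fin 3) (lam : J → Fin 3 → V0 → ℤ)
    (hlam : ∀ j k v, lam j k v ≠ 0 → χ0 v = k) :
    Continues P (fun K _ => (Nat.card {x : V0 → K // ∑ j, ∏ k, lin (lam j k) x = 0} : ℤ)) := by
  let L : List (Finset (VV lam)) := (univ : Finset V0).toList.map (cons1 lam) ++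
    ((univ : Finset (Cp lam)).toList.map (cons2 lam) ++
      (univ : Finset (J × Fin 3)).toList.map (cons3 lam))
  have hL : ∀ q : Finset (VV lam) → Prop, (∀ l ∈ L, q l) ↔
      ((∀ v, q (cons1 lam v)) ∧ (∀ c, q (cons2 lam c)) ∧ (∀ a, q (cons3 lam a))) := by
    intro q
    simp only [L, List.forall_mem_append, List.forall_mem_map, Finset.mem_toList, Finset.mem_univ,
      forall_const]
  have hcol : ∀ l ∈ L, ∃ κ, ∀ i ∈ l, colr lam χ0 i = κ := by
    rw [hL (fun l => ∃ κ, ∀ i ∈ l, colr lam χ0 i = κ)]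
    refine ⟨fun v => ⟨χ0 v, fun i hi => ?_⟩, fun c => ⟨c.1.1.2, fun i hi => ?_⟩,
      fun a => ⟨a.2, fun i hi => ?_⟩⟩
    · unfold cons1 at hi
      rcases Finset.mem_insert.1 hi with rfl | hi
      · rfl
      · rw [Finset.mem_singleton] at hi
        subst hi
        rfl
    · unfold cons2 at hi
      rcases Finset.mem_insert.1 hi with rfl | hi
      · rfl
      · rw [Finset.mem_singleton] at hi
        subst hi
        show χ0 c.1.2.1 = c.1.1.2
        apply hlam c.1.1.1
        intro h0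
        have h1 := c.2.2
        have h2 : mul0 lam c.1 = 0 := by
          unfold mul0
          rw [h0]
          simp
        omega
    · unfold cons3 at hi
      rcases Finset.mem_insert.1 hi with rfl | hi
      · rfl
      · obtain ⟨c, hc, rfl⟩ := Finset.mem_image.1 hi
        have hc' := (Finset.mem_filter.1 hc).2
        show c.1.1.2 = a.2
        rw [hc']
  have hS : ∀ s ∈ SS lam, ∀ k, colr lam χ0 (s k) = k := by
    intro s hs k
    obtain ⟨j, _, rfl⟩ := Finset.mem_image.1 hs
    rfl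
  refine continues_congr (h.con L.length (VV lam) (colr lam χ0) (SS lam) hS L rfl hcol)
    fun K _ _ _ => ?_
  congr 1
  refine Nat.card_congr ?_
  have key : ∀ x : VV lam → K, (∑ s ∈ SS lam, ∏ k, x (s k) = 0 ∧ ∀ l ∈ L, ∑ i ∈ l, x i = 0) ↔
      ((∑ j, ∏ k, lin (lam j k) (fun v => x (Sum.inl (v, true))) = 0) ∧
        x = extv lam (fun v => x (Sum.inl (v, true)))) := by
    intro x
    rw [hL (fun l => ∑ i ∈ l, x i = 0), cons_iff, sum_SS]
    refine and_congr_left fun hx => ?_
    have : ∀ j k, x (Sum.inr (Sum.inl (j, k))) = lin (lam j k) (fun v => x (Sum.inl (v, true))) :=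
      fun j k => congrFun hx (Sum.inr (Sum.inl (j, k)))
    simp only [this]
  have hext : ∀ v : V0 → K, (fun w => extv lam v (Sum.inl (w, true))) = v := by
    intro v
    ext w
    simp [extv, sg]
  exact
    { toFun := fun x => ⟨fun v => x.1 (Sum.inl (v, true)), ((key x.1).1 x.2).1⟩
      invFun := fun v => ⟨extv lam v.1, (key _).2 (by rw [hext]; exact ⟨v.2, rfl⟩)⟩
      left_inv := fun x => Subtype.ext ((key x.1).1 x.2).2.symm
      right_inv := fun v => Subtype.ext (hext v.1) }

end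

end Pool.Agent.E8helper17.FZ
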